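import Pool.Agent.Work.MP_46fa68_R.Ratio

/-! # The case of equality in the ratio bound: orthogonality relations -/

set_option autoImplicit false

open Finset Equiv

namespace Pool.JM

variable {N : ℕ}

section kern

variable {M : ℕ}

theorem G_inv (hM : N < M) (b : Finset ℕ → ℝ) {n : ℕ} (hn : n ≤ N) : Inv (G N M b n) :=
  (Al.sum _ _ fun B _ => ((good hM n hn).al B).smul _).2

theorem G_central (hM : N < M) (b : Finset ℕ → ℝ) (σ : Perm (Fin N)) :
    U σ * G N M b N = G N M b N * U σ := by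
  refine central (fun i hi => ?_) σ
  unfold G
  rw [Finset.mul_sum, Finset.sum_mul]
  refine Finset.sum_congr rfl fun B hB => ?_
  rw [Matrix.mul_smul, Matrix.smul_mul, P_s hM hi hB]

theorem class_of {g : Mat N} (hgal : Inv g) (hcent : ∀ σ, U σ * g = g * U σ)
    (σ τ : Perm (Fin N)) : g (τ * σ * τ⁻¹) 1 = g σ 1 := by
  have e1 : (U τ⁻¹ * g) (σ * τ⁻¹) 1 = g (τ * σ * τ⁻¹) 1 := by
    rw [U_mul_apply, inv_inv, mul_assoc]
  rw [← e1, hcent, mul_U_apply, mul_one]
  have := hgal σ 1 τ⁻¹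
  rwa [one_mul] at this

/-- `G b` is a class function -/
theorem G_class (hM : N < M) (b : Finset ℕ → ℝ) (σ τ : Perm (Fin N)) :
    G N M b N (τ * σ * τ⁻¹) 1 = G N M b N σ 1 :=
  class_of (G_inv hM b le_rfl) (G_central hM b) σ τ

/-- values on the permutations with many fixed points, `b` harmonic continuation of `c` -/
theorem G_val (hM : N < M) {m : ℕ} (hm : m ≤ N) (b : Finset ℕ → ℝ)
    (h : ∀ k, m ≤ k → k < N → ∀ C ∈ Lv M k, b C = ∑ x ∈ ad C, w C x * b (mv C x))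
    {σ τ : Perm (Fin N)} (hτ : Sn m (τ * σ * τ⁻¹)) :
    G N M b N σ 1 = G N M b m (τ * σ * τ⁻¹) 1 := by
  rw [← G_class hM b σ τ]
  have e1 : E m (G N M b N) (τ * σ * τ⁻¹) 1 = G N M b N (τ * σ * τ⁻¹) 1 :=
    E_apply_of (by simpa using hτ)
  have e2 := E_G (N := N) b hM h (N - m) (by omega)
  rw [show m + (N - m) = N by omega] at e2
  rw [← e1, e2]

/-- indicator vector -/
noncomputable def vec (A : Finset (Perm (Fin N))) : Perm (Fin N) → ℝ :=
  fun σ => if σ ∈ A then 1 else 0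

theorem quad_P (hM : N < M) (B : Finset ℕ) (v : Perm (Fin N) → ℝ) :
    v ⬝ᵥ ((P N M N B).mulVec v) = (P N M N B).mulVec v ⬝ᵥ (P N M N B).mulVec v := by
  have hg := good (N := N) hM N le_rfl
  nth_rewrite 1 [← hg.idem B]
  rw [← Matrix.mulVec_mulVec, Matrix.dotProduct_mulVec, ← Matrix.mulVec_transpose, hg.symm]

theorem quad_G (b : Finset ℕ → ℝ) (v : Perm (Fin N) → ℝ) :
    v ⬝ᵥ ((G N M b N).mulVec v) = ∑ B ∈ Lv M N, b B * (v ⬝ᵥ ((P N M N B).mulVec v)) := by
  unfold G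
  rw [Matrix.sum_mulVec, dotProduct_sum]
  refine Finset.sum_congr rfl fun B _ => ?_
  rw [Matrix.smul_mulVec, dotProduct_smul, smul_eq_mul]

/-- values of `G a` on pairs of members of an intersecting family -/
theorem G_pair (hM : N < M) {m : ℕ} (hm : m ≤ N) (a : Finset ℕ → ℝ)
    (h1 : ∀ k, m ≤ k → k < N → ∀ C ∈ Lv M k, a C = ∑ x ∈ ad C, w C x * a (mv C x))
    (h2 : ∀ C ∈ Lv M m, a C = 1) (A : Finset (Perm (Fin N)))
    (hA : ∀ σ ∈ A, ∀ τ ∈ A, N - m ≤ (univ.filter fun i => σ i = τ i).card) :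
    vec A ⬝ᵥ ((G N M a N).mulVec (vec A)) = A.card := by
  have hgal : Inv (G N M a N) := G_inv hM a le_rfl
  have hEg : G N M a m = 1 := by
    unfold G
    rw [← (good (N := N) hM m hm).tot]
    refine Finset.sum_congr rfl fun C hC => ?_
    rw [h2 C hC, one_smul]
  have hval : ∀ σ : Perm (Fin N), N - m ≤ (univ.filter fun i => σ i = i).card →
      G N M a N σ 1 = if σ = 1 then 1 else 0 := by
    intro σ hσ
    obtain ⟨τ, hτ⟩ := conj_small hσ
    rw [G_val hM hm a h1 hτ, hEg, Matrix.one_apply]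
    refine if_congr ?_ rfl rfl
    constructor
    · intro h
      have : σ = τ⁻¹ * (τ * σ * τ⁻¹) * τ := by group
      rw [this, h]
      group
    · rintro rfl
      group
  have hval2 : ∀ σ ∈ A, ∀ τ ∈ A, G N M a N σ τ = if σ = τ then 1 else 0 := by
    intro σ hσ τ hτ
    have e1 : G N M a N σ τ = G N M a N (σ * τ⁻¹) 1 := by
      have := hgal (σ * τ⁻¹) 1 τ
      rw [one_mul] at this
      rw [← this]
      congr 1
      group
    rw [e1, hval]
    · refine if_congr ?_ rfl rfl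
      rw [mul_inv_eq_one]
    · refine (hA σ hσ τ hτ).trans ?_
      refine Finset.card_le_card_of_injOn τ ?_ (τ.injective.injOn)
      intro i hi
      have hi' : σ i = τ i := (mem_filter.1 hi).2
      refine mem_coe.2 (mem_filter.2 ⟨mem_univ _, ?_⟩)
      rw [Perm.mul_apply, show τ⁻¹ (τ i) = i from τ.symm_apply_apply i, hi']
  have e1 : vec A ⬝ᵥ ((G N M a N).mulVec (vec A)) = ∑ σ ∈ A, ∑ τ ∈ A, G N M a N σ τ := by
    simp only [dotProduct, Matrix.mulVec, vec, ite_mul, one_mul, zero_mul, mul_ite, mul_one,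
      mul_zero, Finset.sum_ite_mem, univ_inter]
  rw [e1, Finset.sum_congr rfl fun σ hσ => Finset.sum_congr rfl fun τ hτ => hval2 σ hσ τ hτ]
  rw [Finset.sum_congr rfl fun σ hσ => Finset.sum_ite_eq A σ _]
  simp

/-- the trivial component of the indicator -/
theorem cs (hM : N < M) (A : Finset (Perm (Fin N))) :
    (A.card : ℝ) ^ 2 ≤ N.factorial * (vec A ⬝ᵥ ((P N M N (Rw M N)).mulVec (vec A))) := by
  have hg := good (N := N) hM N le_rfl
  have hone : (P N M N (Rw M N)).mulVec (fun _ => (1 : ℝ)) = fun _ => 1 := by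
    have := P_J (N := N) hM N le_rfl (Rw M N)
    rw [if_pos rfl] at this
    ext σ
    have h := congrFun (congrFun this σ) 1
    rw [Matrix.mul_apply] at h
    simpa [Matrix.mulVec, dotProduct, J] using h
  have e1 : (A.card : ℝ) = ∑ σ, (P N M N (Rw M N)).mulVec (vec A) σ := by
    have e2 : vec A ⬝ᵥ (P N M N (Rw M N)).mulVec (fun _ => (1 : ℝ)) =
        (P N M N (Rw M N)).mulVec (vec A) ⬝ᵥ (fun _ => (1 : ℝ)) := by
      rw [Matrix.dotProduct_mulVec, ← Matrix.mulVec_transpose, hg.symm]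
    rw [hone] at e2
    have e3 : vec A ⬝ᵥ (fun _ => (1 : ℝ)) = A.card := by
      simp [dotProduct, vec]
    rw [← e3, e2]
    simp [dotProduct]
  rw [e1, quad_P hM]
  have := sq_sum_le_card_mul_sum_sq (s := (univ : Finset (Perm (Fin N))))
    (f := fun σ => (P N M N (Rw M N)).mulVec (vec A) σ)
  rw [card_univ, Fintype.card_perm, Fintype.card_fin] at this
  refine this.trans (le_of_eq ?_)
  congr 1
  simp only [dotProduct]
  refine Finset.sum_congr rfl fun σ _ => ?_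
  ring

/-- equality: the other components with positive weight vanish -/
theorem kern (hM : N < M) {m : ℕ} (hm : m ≤ N) (a : Finset ℕ → ℝ)
    (h1 : ∀ k, m ≤ k → k < N → ∀ C ∈ Lv M k, a C = ∑ x ∈ ad C, w C x * a (mv C x))
    (h2 : ∀ C ∈ Lv M m, a C = 1) (h3 : ∀ B ∈ Lv M N, 0 ≤ a B) (A : Finset (Perm (Fin N)))
    (hA : ∀ σ ∈ A, ∀ τ ∈ A, N - m ≤ (univ.filter fun i => σ i = τ i).card)
    (heq : (A.card : ℝ) * a (Rw M N) = N.factorial) {B : Finset ℕ} (hB : B ∈ Lv M N)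
    (hpos : 0 < a B) (hne : B ≠ Rw M N) : (P N M N B).mulVec (vec A) = 0 := by
  set v := vec A with hv
  have hRw : Rw M N ∈ Lv M N := Rw_mem (by omega) N
  have hq := G_pair hM hm a h1 h2 A hA
  rw [quad_G, ← hv, ← Finset.add_sum_erase _ _ hRw] at hq
  have hcs := cs hM A
  rw [← hv] at hcs
  have hNf : (0 : ℝ) < N.factorial := by exact_mod_cast N.factorial_pos
  have h5 : (A.card : ℝ) ≤ a (Rw M N) * (v ⬝ᵥ ((P N M N (Rw M N)).mulVec v)) := by
    have h6 : a (Rw M N) * (A.card : ℝ) ^ 2 ≤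
        a (Rw M N) * (N.factorial * (v ⬝ᵥ ((P N M N (Rw M N)).mulVec v))) :=
      mul_le_mul_of_nonneg_left hcs (h3 _ hRw)
    have h7 : a (Rw M N) * (A.card : ℝ) ^ 2 = N.factorial * A.card := by
      rw [← heq]; ring
    rw [h7] at h6
    have h8 : a (Rw M N) * (N.factorial * (v ⬝ᵥ ((P N M N (Rw M N)).mulVec v))) =
        N.factorial * (a (Rw M N) * (v ⬝ᵥ ((P N M N (Rw M N)).mulVec v))) := by ring
    rw [h8] at h6
    exact le_of_mul_le_mul_left h6 hNf
  have hnn : ∀ C ∈ (Lv M N).erase (Rw M N), 0 ≤ a C * (v ⬝ᵥ ((P N M N C).mulVec v)) := by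
    intro C hC
    refine mul_nonneg (h3 C (mem_of_mem_erase hC)) ?_
    rw [quad_P hM]
    exact Finset.sum_nonneg fun i _ => mul_self_nonneg _
  have h9 : ∑ C ∈ (Lv M N).erase (Rw M N), a C * (v ⬝ᵥ ((P N M N C).mulVec v)) = 0 :=
    le_antisymm (by linarith) (Finset.sum_nonneg hnn)
  have h10 := (Finset.sum_eq_zero_iff_of_nonneg hnn).1 h9 B (mem_erase.2 ⟨hne, hB⟩)
  have h11 := (mul_eq_zero.1 h10).resolve_left hpos.ne'
  rw [quad_P hM] at h11
  ext σ
  have h12 := (Finset.sum_eq_zero_iff_of_nonneg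
    (fun i _ => mul_self_nonneg ((P N M N B).mulVec v i))).1 h11 σ (mem_univ _)
  exact mul_self_eq_zero.1 h12

/-- orthogonality relations of a tight family -/
theorem ortho (hM : N < M) {m : ℕ} (hm : m ≤ N) (a : Finset ℕ → ℝ)
    (h1 : ∀ k, m ≤ k → k < N → ∀ C ∈ Lv M k, a C = ∑ x ∈ ad C, w C x * a (mv C x))
    (h2 : ∀ C ∈ Lv M m, a C = 1) (h3 : ∀ B ∈ Lv M N, 0 ≤ a B) (A : Finset (Perm (Fin N)))
    (hA : ∀ σ ∈ A, ∀ τ ∈ A, N - m ≤ (univ.filter fun i => σ i = τ i).card)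
    (heq : (A.card : ℝ) * a (Rw M N) = N.factorial)
    (b : Finset ℕ → ℝ) (hb : ∀ B ∈ Lv M N, b B ≠ 0 → 0 < a B ∧ B ≠ Rw M N)
    (τ : Perm (Fin N)) : ∑ σ ∈ A, G N M b N (τ * σ⁻¹) 1 = 0 := by
  have h4 : (G N M b N).mulVec (vec A) = 0 := by
    unfold G
    rw [Matrix.sum_mulVec]
    refine Finset.sum_eq_zero fun B hB => ?_
    rw [Matrix.smul_mulVec]
    by_cases h : b B = 0
    · rw [h, zero_smul]
    · rw [kern hM hm a h1 h2 h3 A hA heq hB (hb B hB h).1 (hb B hB h).2, smul_zero]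
  have h5 := congrFun h4 τ
  have h6 : (G N M b N).mulVec (vec A) τ = ∑ σ ∈ A, G N M b N τ σ := by
    simp only [dotProduct, Matrix.mulVec, vec, mul_ite, mul_one, mul_zero, Finset.sum_ite_mem,
      univ_inter]
  rw [h6] at h5
  rw [← Pi.zero_apply (M := fun _ : Perm (Fin N) => ℝ) τ, ← h5]
  refine Finset.sum_congr rfl fun σ _ => ?_
  have := G_inv hM b le_rfl (τ * σ⁻¹) 1 σ
  rw [one_mul] at this
  rw [← this]
  congr 1
  group

end kern

end Pool.JM
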