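import Mathlib

/-! # Beta-sets of partitions and the transition measure of Young's lattice

A partition with at most `M` rows is a finset `B` of `M` natural numbers; a box is added by moving
an element `x ∈ B` to `x + 1 ∉ B`. -/

set_option autoImplicit false

open Finset Polynomial

namespace Pool.JM

/-- transition weight (ratio of hook products) -/
noncomputable def w (B : Finset ℕ) (x : ℕ) : ℝ :=
  (∏ y ∈ B.erase x, (((x : ℝ) + 1 - y) / ((x : ℝ) - y))) / ((x : ℝ) + 1)

/-- move the bead `x` to `x + 1` -/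
def mv (B : Finset ℕ) (x : ℕ) : Finset ℕ := insert (x + 1) (B.erase x)

/-- the movable beads -/
def ad (B : Finset ℕ) : Finset ℕ := B.filter fun x => x + 1 ∉ B

/-- the beta-sets of the partitions of `n` with at most `M` rows -/
def Lv (M : ℕ) : ℕ → Finset (Finset ℕ)
  | 0 => {range M}
  | n + 1 => (Lv M n).biUnion fun C => (ad C).image (mv C)

theorem mem_ad {B : Finset ℕ} {x : ℕ} : x ∈ ad B ↔ x ∈ B ∧ x + 1 ∉ B := by
  simp [ad]

theorem w_zero {B : Finset ℕ} {x : ℕ} (h : x + 1 ∈ B) : w B x = 0 := by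
  unfold w
  rw [Finset.prod_eq_zero (i := x + 1), zero_div]
  · exact mem_erase.2 ⟨by omega, h⟩
  · push_cast
    simp

section lag

variable (B : Finset ℕ)

theorem inj : Set.InjOn (fun x : ℕ => (x : ℝ)) (B : Set ℕ) :=
  Nat.cast_injective.injOn

/-- the numerator -/
noncomputable def Q : ℝ[X] := ∏ y ∈ B.erase 0, (X - C ((y : ℝ) - 1))

theorem Q_eval (z : ℝ) : (Q B).eval z = ∏ y ∈ B.erase 0, (z + 1 - y) := by
  unfold Q
  rw [eval_prod]
  refine Finset.prod_congr rfl fun y _ => ?_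
  simp only [eval_sub, eval_X, eval_C]
  ring

theorem Q_monic : (Q B).Monic := monic_prod_of_monic _ _ fun _ _ => monic_X_sub_C _

theorem Q_natDegree (h0 : 0 ∈ B) : (Q B).natDegree = B.card - 1 := by
  unfold Q
  rw [natDegree_prod_of_monic _ _ fun _ _ => monic_X_sub_C _]
  have : ∀ x ∈ B.erase 0, (X - C ((x : ℝ) - 1)).natDegree = 1 :=
    fun x _ => natDegree_X_sub_C ((x : ℝ) - 1)
  rw [Finset.sum_congr rfl this, sum_const, card_erase_of_mem h0, smul_eq_mul, mul_one]

theorem Q_degree (h0 : 0 ∈ B) : (Q B).degree < (B.card : WithBot ℕ) := by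
  have hc : 0 < B.card := card_pos.2 ⟨0, h0⟩
  rw [degree_eq_natDegree (Q_monic B).ne_zero, Q_natDegree B h0]
  exact_mod_cast Nat.sub_lt hc one_pos

theorem w_eq (h0 : 0 ∈ B) {x : ℕ} (hx : x ∈ B) :
    w B x = (Q B).eval (x : ℝ) / ∏ y ∈ B.erase x, ((x : ℝ) - y) := by
  have h1 : ((x : ℝ) + 1) * (Q B).eval (x : ℝ) = ∏ y ∈ B, ((x : ℝ) + 1 - y) := by
    rw [Q_eval, ← mul_prod_erase B _ h0]
    simp
  have h2 : ∏ y ∈ B, ((x : ℝ) + 1 - y) = ∏ y ∈ B.erase x, ((x : ℝ) + 1 - y) := by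
    rw [← mul_prod_erase B _ hx]
    simp
  have h3 : (x : ℝ) + 1 ≠ 0 := by positivity
  unfold w
  rw [prod_div_distrib, ← h2, ← h1]
  field_simp

theorem w_sum (h0 : 0 ∈ B) : ∑ x ∈ B, w B x = 1 := by
  have h1 := Lagrange.coeff_eq_sum (inj B) (Q_degree B h0)
  have h2 : (Q B).coeff (B.card - 1) = 1 := by
    rw [← Q_natDegree B h0]
    exact Q_monic B
  rw [h2] at h1
  rw [h1]
  exact Finset.sum_congr rfl fun x hx => w_eq B h0 hx

theorem w_div (h0 : 0 ∈ B) {u : ℕ} (hu : u ∉ B) (hu1 : u + 1 ∈ B) :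
    ∑ x ∈ B, w B x / ((x : ℝ) - u) = 0 := by
  have h1 := Lagrange.eq_interpolate (inj B) (Q_degree B h0)
  have hne : ∀ i ∈ B, (u : ℝ) ≠ (i : ℝ) := by
    intro i hi h
    have : u = i := by exact_mod_cast h
    exact hu (this ▸ hi)
  have h2 := Lagrange.eval_interpolate_not_at_node (s := B) (v := fun x : ℕ => (x : ℝ))
    (fun i : ℕ => (Q B).eval ((i : ℕ) : ℝ)) (x := (u : ℝ)) hne
  rw [← h1] at h2
  have h3 : (Q B).eval (u : ℝ) = 0 := by
    rw [Q_eval]
    refine Finset.prod_eq_zero (i := u + 1) (mem_erase.2 ⟨by omega, hu1⟩) ?_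
    push_cast
    ring
  have h4 : (Lagrange.nodal B fun x : ℕ => (x : ℝ)).eval (u : ℝ) ≠ 0 := by
    rw [Lagrange.eval_nodal]
    refine Finset.prod_ne_zero_iff.2 fun i hi => sub_ne_zero.2 (hne i hi)
  rw [h3] at h2
  have h5 := (mul_eq_zero.1 h2.symm).resolve_left h4
  have h6 : ∑ x ∈ B, w B x / ((x : ℝ) - u) =
      -∑ i ∈ B, Lagrange.nodalWeight B (fun x : ℕ => (x : ℝ)) i * ((u : ℝ) - i)⁻¹ *
        (Q B).eval ((i : ℕ) : ℝ) := by
    rw [← Finset.sum_neg_distrib]
    refine Finset.sum_congr rfl fun x hx => ?_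
    rw [w_eq B h0 hx, Lagrange.nodalWeight, prod_inv_distrib,
      show (u : ℝ) - x = -((x : ℝ) - u) by ring, inv_neg]
    ring
  rw [h6, h5, neg_zero]

end lag

section step

variable {C : Finset ℕ} {u : ℕ}

theorem w_step (hu : u ∈ C) (hu1 : u + 1 ∉ C) {x : ℕ} (hx : x ∈ C) (hxu : x ≠ u) :
    w (mv C u) x * (1 - 1 / ((x : ℝ) - u) ^ 2) = w C x := by
  have hx1 : x ≠ u + 1 := fun h => hu1 (h ▸ hx)
  set S := (C.erase u).erase x with hS
  have e1 : (mv C u).erase x = insert (u + 1) S := by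
    ext y
    simp only [mv, hS, mem_erase, mem_insert]
    constructor
    · rintro ⟨h1, h2 | h2⟩
      · exact Or.inl h2
      · exact Or.inr ⟨h1, h2⟩
    · rintro (h | ⟨h1, h2⟩)
      · exact ⟨by omega, Or.inl h⟩
      · exact ⟨h1, Or.inr h2⟩
  have n1 : u + 1 ∉ S := by
    simp only [hS, mem_erase]
    rintro ⟨-, -, h⟩
    exact hu1 h
  have e2 : C.erase x = insert u S := by
    ext y
    simp only [hS, mem_erase, mem_insert]
    constructor
    · rintro ⟨h1, h2⟩
      by_cases hy : y = u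
      · exact Or.inl hy
      · exact Or.inr ⟨h1, hy, h2⟩
    · rintro (h | ⟨h1, h2, h3⟩)
      · exact ⟨by omega, h ▸ hu⟩
      · exact ⟨h1, h3⟩
  have n2 : u ∉ S := by simp [hS]
  have r1 : (x : ℝ) - u ≠ 0 := by
    rw [sub_ne_zero]
    exact_mod_cast hxu
  have r2 : (x : ℝ) - (u + 1) ≠ 0 := by
    rw [sub_ne_zero]
    exact_mod_cast hx1
  have r3 : (x : ℝ) + 1 ≠ 0 := by positivity
  unfold w
  rw [e1, e2, prod_insert n1, prod_insert n2]
  push_cast
  generalize (∏ y ∈ S, ((x : ℝ) + 1 - y) / ((x : ℝ) - y)) = A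
  field_simp
  ring

/-- the shifted moments of the transition measure -/
noncomputable def mom (B : Finset ℕ) (u : ℝ) (j : ℕ) : ℝ := ∑ x ∈ B, w B x * ((x : ℝ) - u) ^ j

theorem sum_step (hu : u ∈ C) (hu1 : u + 1 ∉ C) {j : ℕ} (hj : 1 ≤ j) :
    ∑ x ∈ mv C u, w (mv C u) x * (1 - 1 / ((x : ℝ) - u) ^ 2) * ((x : ℝ) - u) ^ j =
      mom C u j := by
  have n1 : u + 1 ∉ C.erase u := fun h => hu1 (mem_of_mem_erase h)
  unfold mom
  rw [← add_sum_erase C _ hu]
  have e : mv C u = insert (u + 1) (C.erase u) := rfl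
  rw [show (∑ x ∈ mv C u, w (mv C u) x * (1 - 1 / ((x : ℝ) - u) ^ 2) * ((x : ℝ) - u) ^ j) =
    ∑ x ∈ insert (u + 1) (C.erase u),
      w (mv C u) x * (1 - 1 / ((x : ℝ) - u) ^ 2) * ((x : ℝ) - u) ^ j from rfl,
    sum_insert n1]
  have z1 : w (mv C u) (u + 1) * (1 - 1 / (((u + 1 : ℕ) : ℝ) - u) ^ 2) *
      (((u + 1 : ℕ) : ℝ) - u) ^ j = 0 := by
    push_cast
    simp
  have z2 : w C u * ((u : ℝ) - u) ^ j = 0 := by
    rw [sub_self, zero_pow (by omega), mul_zero]
  rw [z1, z2]
  congr 1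
  refine Finset.sum_congr rfl fun x hx => ?_
  rw [mem_erase] at hx
  rw [w_step hu hu1 hx.2 hx.1]

theorem mom_one (hu : u ∈ C) (hu1 : u + 1 ∉ C) (h0 : 0 ∈ mv C u) :
    mom (mv C u) u 1 = mom C u 1 := by
  rw [← sum_step hu hu1 le_rfl]
  have hn : u ∉ mv C u := by simp [mv]
  have hm : u + 1 ∈ mv C u := by simp [mv]
  have h := w_div (mv C u) h0 hn hm
  have e : ∑ x ∈ mv C u, w (mv C u) x * (1 - 1 / ((x : ℝ) - u) ^ 2) * ((x : ℝ) - u) ^ 1 =
      ∑ x ∈ mv C u, w (mv C u) x * ((x : ℝ) - u) ^ 1 -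
        ∑ x ∈ mv C u, w (mv C u) x / ((x : ℝ) - u) := by
    rw [← Finset.sum_sub_distrib]
    refine Finset.sum_congr rfl fun x hx => ?_
    have r1 : (x : ℝ) - u ≠ 0 := by
      rw [sub_ne_zero]
      intro h
      have : x = u := by exact_mod_cast h
      exact hn (this ▸ hx)
    field_simp
  rw [e, h, sub_zero]
  rfl

theorem mom_two (hu : u ∈ C) (hu1 : u + 1 ∉ C) (j : ℕ) :
    mom (mv C u) u (j + 2) = mom C u (j + 2) + mom (mv C u) u j := by
  rw [← sum_step hu hu1 (by omega : 1 ≤ j + 2)]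
  unfold mom
  rw [← Finset.sum_add_distrib]
  have hn : u ∉ mv C u := by simp [mv]
  refine Finset.sum_congr rfl fun x hx => ?_
  have r1 : (x : ℝ) - u ≠ 0 := by
    rw [sub_ne_zero]
    intro h
    have : x = u := by exact_mod_cast h
    exact hn (this ▸ hx)
  field_simp
  ring

theorem mom_zero (B : Finset ℕ) (h0 : 0 ∈ B) (u : ℝ) : mom B u 0 = 1 := by
  unfold mom
  simp only [pow_zero, mul_one]
  exact w_sum B h0

end step

section levels

theorem Lv_spec {M : ℕ} : ∀ {n : ℕ} {B : Finset ℕ}, B ∈ Lv M n →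
    B.card = M ∧ (∀ i, i + n < M → i ∈ B) ∧ (∀ i ∈ B, i < M + n) ∧
    ∑ i ∈ B, i = ∑ i ∈ range M, i + n
  | 0, B, h => by
    simp only [Lv, mem_singleton] at h
    subst h
    refine ⟨card_range M, fun i hi => mem_range.2 (by omega), fun i hi => ?_, by simp⟩
    have := mem_range.1 hi
    omega
  | n + 1, B, h => by
    simp only [Lv, mem_biUnion, mem_image] at h
    obtain ⟨C, hC, u, hu, rfl⟩ := h
    obtain ⟨h1, h2, h3, h4⟩ := Lv_spec hC
    obtain ⟨hu, hu1⟩ := mem_ad.1 hu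
    have n1 : u + 1 ∉ C.erase u := fun h => hu1 (mem_of_mem_erase h)
    refine ⟨?_, ?_, ?_, ?_⟩
    · unfold mv
      rw [card_insert_of_notMem n1, card_erase_of_mem hu, h1]
      have : 0 < C.card := card_pos.2 ⟨u, hu⟩
      omega
    · intro i hi
      by_cases hiu : i = u
      · exact absurd (h2 (u + 1) (by omega)) hu1
      · exact mem_insert_of_mem (mem_erase.2 ⟨hiu, h2 i (by omega)⟩)
    · intro i hi
      simp only [mv, mem_insert, mem_erase] at hi
      rcases hi with rfl | ⟨-, hi⟩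
      · have := h3 u hu
        omega
      · have := h3 i hi
        omega
    · unfold mv
      rw [sum_insert n1]
      have := add_sum_erase C (fun i => i) hu
      omega

theorem Lv_zero_mem {M n : ℕ} {B : Finset ℕ} (h : B ∈ Lv M n) (hn : n < M) : 0 ∈ B :=
  (Lv_spec h).2.1 0 (by omega)

theorem mv_mem {M n : ℕ} {C : Finset ℕ} (hC : C ∈ Lv M n) {u : ℕ} (hu : u ∈ ad C) :
    mv C u ∈ Lv M (n + 1) := by
  simp only [Lv, mem_biUnion, mem_image]
  exact ⟨C, hC, u, hu, rfl⟩

theorem ad_nonempty {B : Finset ℕ} (h : B.Nonempty) : (ad B).Nonempty := by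
  refine ⟨B.max' h, mem_ad.2 ⟨B.max'_mem h, fun hh => ?_⟩⟩
  have := B.le_max' _ hh
  omega

/-- the partition `(n)` -/
def Rw (M n : ℕ) : Finset ℕ := insert (M - 1 + n) (range (M - 1))

theorem Rw_zero {M : ℕ} (hM : 0 < M) : Rw M 0 = range M := by
  unfold Rw
  rw [add_zero, ← Finset.range_add_one, Nat.sub_add_cancel hM]

theorem Rw_ad (M n : ℕ) : M - 1 + n ∈ ad (Rw M n) := by
  rw [mem_ad]
  simp only [Rw, mem_insert, mem_range]
  refine ⟨Or.inl trivial, fun h => ?_⟩
  omega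

theorem Rw_mv (M n : ℕ) : mv (Rw M n) (M - 1 + n) = Rw M (n + 1) := by
  ext y
  simp only [Rw, mv, mem_insert, mem_erase, mem_range]
  omega

theorem Rw_mem {M : ℕ} (hM : 0 < M) : ∀ n, Rw M n ∈ Lv M n
  | 0 => by simp [Lv, Rw_zero hM]
  | n + 1 => by
    rw [← Rw_mv]
    exact mv_mem (Rw_mem hM n) (Rw_ad M n)

end levels

section separation

/-- eigenvalue of the central element -/
noncomputable def F (B : Finset ℕ) (z : ℝ) : ℝ := ∏ b ∈ B, ∏ j ∈ range b, (z + j)

theorem F_mv {C : Finset ℕ} {u : ℕ} (hu : u ∈ C) (hu1 : u + 1 ∉ C) (z : ℝ) :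
    F (mv C u) z = F C z * (z + u) := by
  have n1 : u + 1 ∉ C.erase u := fun h => hu1 (mem_of_mem_erase h)
  unfold F mv
  rw [prod_insert n1, prod_range_succ, ← mul_prod_erase C _ hu]
  ring

theorem F_inj {B B' : Finset ℕ} (hc : B.card = B'.card) (h : ∀ z, F B z = F B' z) : B = B' := by
  -- counts of larger elements
  have hroots : ∀ B : Finset ℕ, (∏ b ∈ B, ∏ j ∈ range b, (X - C (-(j : ℝ)))).roots =
      ∑ b ∈ B, (Multiset.map (fun j : ℕ => -(j : ℝ)) (range b).val) := by
    intro B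
    rw [roots_prod]
    · rw [Multiset.bind, Multiset.join, Finset.sum]
      congr 1
      refine Multiset.map_congr rfl fun b _ => ?_
      rw [Finset.prod, show (Multiset.map (fun j : ℕ => X - C (-(j : ℝ))) (range b).val) =
        Multiset.map (fun a : ℝ => X - C a) (Multiset.map (fun j : ℕ => -(j : ℝ)) (range b).val) by
          rw [Multiset.map_map]; rfl, roots_multiset_prod_X_sub_C]
    · refine Finset.prod_ne_zero_iff.2 fun b _ => Finset.prod_ne_zero_iff.2 fun j _ => ?_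
      exact X_sub_C_ne_zero _
  have hpoly : (∏ b ∈ B, ∏ j ∈ range b, (X - C (-(j : ℝ)))) =
      ∏ b ∈ B', ∏ j ∈ range b, (X - C (-(j : ℝ))) := by
    refine Polynomial.funext fun z => ?_
    have := h z
    unfold F at this
    simpa [eval_prod] using this
  have hcount : ∀ (B : Finset ℕ) (j : ℕ), Multiset.count (-(j : ℝ))
      (∑ b ∈ B, (Multiset.map (fun j : ℕ => -(j : ℝ)) (range b).val)) =
      (B.filter fun b => j < b).card := by
    intro B j
    rw [Multiset.count_sum', Finset.card_filter]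
    refine Finset.sum_congr rfl fun b _ => ?_
    have hinj : Function.Injective fun j : ℕ => -(j : ℝ) := fun a b hab => by
      have : (a : ℝ) = b := neg_injective hab
      exact_mod_cast this
    rw [show (-(j : ℝ)) = (fun j : ℕ => -(j : ℝ)) j from rfl,
      Multiset.count_map_eq_count' _ _ hinj]
    rw [Finset.range_val, Multiset.count_eq_of_nodup (Multiset.nodup_range b)]
    simp
  have hall : ∀ j, (B.filter fun b => j < b).card = (B'.filter fun b => j < b).card := by
    intro j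
    rw [← hcount, ← hcount, ← hroots, ← hroots, hpoly]
  have hge : ∀ j, (B.filter fun b => j ≤ b).card = (B'.filter fun b => j ≤ b).card := by
    intro j
    cases j with
    | zero => simpa using hc
    | succ j => simpa [Nat.succ_le_iff] using hall j
  have key : ∀ (D : Finset ℕ) (j : ℕ), (D.filter fun b => j ≤ b).card =
      (D.filter fun b => j < b).card + if j ∈ D then 1 else 0 := by
    intro D j
    split_ifs with hj
    · have : (D.filter fun b => j ≤ b) = insert j (D.filter fun b => j < b) := by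
        ext y
        simp only [mem_filter, mem_insert]
        constructor
        · rintro ⟨h1, h2⟩
          rcases eq_or_lt_of_le h2 with h3 | h3
          · exact Or.inl h3.symm
          · exact Or.inr ⟨h1, h3⟩
        · rintro (h1 | ⟨h1, h2⟩)
          · exact ⟨h1 ▸ hj, h1.ge⟩
          · exact ⟨h1, h2.le⟩
      rw [this, card_insert_of_notMem (by simp)]
    · have : (D.filter fun b => j ≤ b) = D.filter fun b => j < b := by
        ext y
        simp only [mem_filter]
        constructor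
        · rintro ⟨h1, h2⟩
          refine ⟨h1, lt_of_le_of_ne h2 fun h3 => hj (h3 ▸ h1)⟩
        · rintro ⟨h1, h2⟩
          exact ⟨h1, h2.le⟩
      rw [this, add_zero]
  ext j
  have h1 := key B j
  have h2 := key B' j
  rw [hge j, hall j] at h1
  by_cases hj : j ∈ B <;> by_cases hj' : j ∈ B' <;> simp_all

end separation

end Pool.JM
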