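import Pool.Agent.Work.MP_46fa68_R.Idem

/-! # Centrality of the idempotents -/

set_option autoImplicit false

open Finset Equiv

namespace Pool.JM

variable {N : ℕ}

/-- `∏_{k<n} (z + X_k)` -/
noncomputable def Zn (N M : ℕ) (z : ℝ) : ℕ → Mat N
  | 0 => 1
  | n + 1 => Zn N M z n * (X ((M : ℝ) - 1) n + z • 1)

theorem Zn_al (M : ℕ) (z : ℝ) : ∀ n, Al n (Zn N M z n)
  | 0 => Al_one 0
  | n + 1 => ((Zn_al M z n).mono (by omega)).mul ((X_Al _ n).add ((Al_one _).smul z))

theorem Zn_symm (M : ℕ) (z : ℝ) : ∀ n, n ≤ N → (Zn N M z n).transpose = Zn N M z n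
  | 0, _ => Matrix.transpose_one
  | n + 1, h => by
    have e : Zn N M z (n + 1) = Zn N M z n * (X ((M : ℝ) - 1) n + z • 1) := rfl
    rw [e, Matrix.transpose_mul, Zn_symm M z n (by omega), Matrix.transpose_add, X_symm,
      Matrix.transpose_smul, Matrix.transpose_one, add_mul, mul_add,
      X_comm _ (by omega : n < N) (Zn_al M z n), Matrix.smul_mul, Matrix.mul_smul, one_mul,
      mul_one]

/-- eigenvalues -/
theorem Zn_P {M : ℕ} (hM : N < M) (z : ℝ) : ∀ n, n ≤ N → ∀ B,
    F (range M) z • (Zn N M z n * P N M n B) = F B z • P N M n B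
  | 0, _, B => by
    have e : P N M 0 B = if B = range M then 1 else 0 := rfl
    have e' : Zn N M z 0 = 1 := rfl
    rw [e, e', one_mul]
    split_ifs with h
    · rw [h]
    · rw [smul_zero, smul_zero]
  | n + 1, h, B => by
    have hg := good hM n (by omega)
    rw [P_succ, Finset.mul_sum, Finset.smul_sum, Finset.smul_sum]
    refine Finset.sum_congr rfl fun q hq => ?_
    obtain ⟨hC, hu⟩ := mem_sigma.1 hq
    split_ifs with hB
    · have e : Zn N M z (n + 1) = Zn N M z n * (X ((M : ℝ) - 1) n + z • 1) := rfl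
      have e1 : (X ((M : ℝ) - 1) n + z • 1) * Pc N M n q.1 q.2 =
          (z + q.2) • Pc N M n q.1 q.2 := by
        rw [add_mul, hg.eig (by omega) hC hu, Matrix.smul_mul, one_mul, ← add_smul]
        congr 1
        ring
      have e2 : F (range M) z • (Zn N M z n * Pc N M n q.1 q.2) =
          F q.1 z • Pc N M n q.1 q.2 := by
        unfold Pc
        rw [← mul_assoc, ← Matrix.smul_mul, Zn_P hM z n (by omega) q.1, Matrix.smul_mul]
      rw [e, mul_assoc, e1, Matrix.mul_smul, smul_comm, e2, smul_smul, ← hB,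
        F_mv (mem_ad.1 hu).1 (mem_ad.1 hu).2, mul_comm]
    · rw [mul_zero, smul_zero, smul_zero]

/-- the transpose of the basic relation -/
theorem s_X (c : ℝ) {n : ℕ} (h : n + 1 < N) :
    U (s n h) * X c (n + 1) = X c n * U (s n h) + 1 := by
  have := congrArg Matrix.transpose (X_s c h)
  rwa [Matrix.transpose_mul, Matrix.transpose_add, Matrix.transpose_mul, U_transpose, s_inv,
    X_symm, X_symm, Matrix.transpose_one] at this

theorem s_pair (c z : ℝ) {n : ℕ} (h : n + 1 < N) :
    U (s n h) * ((X c n + z • 1) * (X c (n + 1) + z • 1)) =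
      ((X c n + z • 1) * (X c (n + 1) + z • 1)) * U (s n h) := by
  have h1 := X_s c h
  have h2 := s_X c h
  have h3 : (X c n : Mat N) * X c (n + 1) = X c (n + 1) * X c n := X_comm c h (X_Al c n)
  set S : Mat N := U (s n h) with hS
  set A : Mat N := X c n with hA
  set B : Mat N := X c (n + 1) with hB
  have e1 : S * A = B * S - 1 := by rw [h1]; abel
  have e2 : S * (A + z • 1) = (B + z • 1) * S - 1 := by
    rw [mul_add, e1, add_mul, Matrix.mul_smul, Matrix.smul_mul, mul_one, one_mul]
    abel
  have e3 : S * (B + z • 1) = (A + z • 1) * S + 1 := by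
    rw [mul_add, h2, add_mul, Matrix.mul_smul, Matrix.smul_mul, mul_one, one_mul]
    abel
  have e4 : (A + z • 1) * (B + z • 1) = (B + z • 1) * (A + z • 1) := by
    rw [add_mul, mul_add, mul_add, add_mul, mul_add, mul_add, h3]
    simp only [Matrix.mul_smul, Matrix.smul_mul, mul_one, one_mul]
    abel
  rw [← mul_assoc, e2, sub_mul, one_mul, mul_assoc, e3, mul_add, mul_one, ← mul_assoc, e4]
  abel

theorem s_Zn (M : ℕ) (z : ℝ) {i : ℕ} (h : i + 1 < N) : ∀ d, i + 2 + d ≤ N →
    U (s i h) * Zn N M z (i + 2 + d) = Zn N M z (i + 2 + d) * U (s i h)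
  | 0, _ => by
    have e : Zn N M z (i + 2 + 0) =
        Zn N M z i * ((X ((M : ℝ) - 1) i + z • 1) * (X ((M : ℝ) - 1) (i + 1) + z • 1)) := by
      rw [← mul_assoc]
      rfl
    rw [e, ← mul_assoc, ← s_commA h (Zn_al M z i), mul_assoc, s_pair]
    exact (mul_assoc _ _ _).symm
  | d + 1, hd => by
    have e : Zn N M z (i + 2 + (d + 1)) =
        Zn N M z (i + 2 + d) * (X ((M : ℝ) - 1) (i + 2 + d) + z • 1) := rfl
    have hs : Al (i + 2 + d) (U (s i h)) := (Al_U (s_Sn i h)).mono (by omega)
    have hX : U (s i h) * X ((M : ℝ) - 1) (i + 2 + d) = X ((M : ℝ) - 1) (i + 2 + d) * U (s i h) :=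
      X_comm _ (by omega) hs
    rw [e, ← mul_assoc, s_Zn M z h d (by omega), mul_assoc, mul_assoc, mul_add, add_mul, hX,
      Matrix.mul_smul, Matrix.smul_mul, mul_one, one_mul]

theorem P_s_P {M : ℕ} (hM : N < M) {i : ℕ} (h : i + 1 < N) {B B' : Finset ℕ} (hB : B ∈ Lv M N)
    (hB' : B' ∈ Lv M N) (hne : B ≠ B') : P N M N B * U (s i h) * P N M N B' = 0 := by
  have hg := good hM N le_rfl
  have hc : B.card = B'.card := (Lv_spec hB).1.trans (Lv_spec hB').1.symm
  obtain ⟨z, hz⟩ : ∃ z, F B z ≠ F B' z := by
    by_contra hcon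
    push Not at hcon
    exact hne (F_inj hc hcon)
  set S : Mat N := U (s i h) with hS
  set Z : Mat N := Zn N M z N with hZ
  have hSZ : S * Z = Z * S := by
    have := s_Zn M z h (N - (i + 2)) (by omega)
    rwa [show i + 2 + (N - (i + 2)) = N by omega] at this
  have h1 : F (range M) z • (Z * P N M N B') = F B' z • P N M N B' := Zn_P hM z N le_rfl B'
  have h2 : F (range M) z • (P N M N B * Z) = F B z • P N M N B := by
    have := congrArg Matrix.transpose (Zn_P hM z N le_rfl B)
    rwa [Matrix.transpose_smul, Matrix.transpose_smul, Matrix.transpose_mul, hg.symm,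
      Zn_symm M z N le_rfl] at this
  have h3 : F (range M) z • (P N M N B * Z * S * P N M N B') =
      F B z • (P N M N B * S * P N M N B') := by
    rw [mul_assoc (P N M N B * Z), ← Matrix.smul_mul, h2, Matrix.smul_mul, mul_assoc]
  have h4 : F (range M) z • (P N M N B * Z * S * P N M N B') =
      F B' z • (P N M N B * S * P N M N B') := by
    rw [mul_assoc (P N M N B) Z, ← hSZ, ← mul_assoc (P N M N B), mul_assoc (P N M N B * S),
      ← Matrix.mul_smul, h1, Matrix.mul_smul]
  have h5 : (F B z - F B' z) • (P N M N B * S * P N M N B') = 0 := by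
    rw [sub_smul, ← h3, ← h4, sub_self]
  exact (smul_eq_zero.1 h5).resolve_left (sub_ne_zero.2 hz)

theorem P_s {M : ℕ} (hM : N < M) {i : ℕ} (h : i + 1 < N) {B : Finset ℕ} (hB : B ∈ Lv M N) :
    U (s i h) * P N M N B = P N M N B * U (s i h) := by
  have hg := good hM N le_rfl
  have h1 : U (s i h) * P N M N B = P N M N B * U (s i h) * P N M N B := by
    calc U (s i h) * P N M N B = (∑ C ∈ Lv M N, P N M N C) * (U (s i h) * P N M N B) := by
          rw [hg.tot, one_mul]
      _ = _ := by
          rw [Finset.sum_mul, Finset.sum_eq_single B]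
          · rw [mul_assoc]
          · intro C hC hne
            rw [← mul_assoc, P_s_P hM h hC hB hne]
          · intro hh
            exact absurd hB hh
  have h2 : P N M N B * U (s i h) = P N M N B * U (s i h) * P N M N B := by
    calc P N M N B * U (s i h) = P N M N B * U (s i h) * (∑ C ∈ Lv M N, P N M N C) := by
          rw [hg.tot, mul_one]
      _ = _ := by
          rw [Finset.mul_sum, Finset.sum_eq_single B]
          · intro C hC hne
            rw [P_s_P hM h hB hC (Ne.symm hne)]
          · intro hh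
            exact absurd hB hh
  rw [h1, ← h2]

/-- the idempotents are central -/
theorem central {T : Mat N} (hT : ∀ (i : ℕ) (h : i + 1 < N), U (s i h) * T = T * U (s i h))
    (σ : Perm (Fin N)) : U σ * T = T * U σ := by
  cases N with
  | zero =>
    have : σ = 1 := Subsingleton.elim _ _
    rw [this, U_one, one_mul, mul_one]
  | succ n =>
    let S : Submonoid (Perm (Fin (n + 1))) :=
      { carrier := {σ | U σ * T = T * U σ}
        one_mem' := by
          change U 1 * T = T * U 1
          rw [U_one, one_mul, mul_one]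
        mul_mem' := by
          intro a b ha hb
          change U (a * b) * T = T * U (a * b)
          have ha' : U a * T = T * U a := ha
          have hb' : U b * T = T * U b := hb
          rw [← U_mul, mul_assoc, hb', ← mul_assoc, ha', mul_assoc] }
    have hle : Submonoid.closure (Set.range fun i : Fin n => swap i.castSucc i.succ) ≤ S := by
      rw [Submonoid.closure_le]
      rintro _ ⟨i, rfl⟩
      have := hT (i : ℕ) (by omega)
      exact this
    rw [Perm.mclosure_swap_castSucc_succ] at hle
    exact hle (Submonoid.mem_top σ)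

end Pool.JM
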