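import Mathlib

/-! # The group algebra of `Perm (Fin N)` as right invariant matrices, Jucys-Murphy elements -/

set_option autoImplicit false

open Finset Equiv

namespace Pool.JM

variable {N : ℕ}

/-- matrices indexed by the symmetric group -/
abbrev Mat (N : ℕ) : Type := Matrix (Perm (Fin N)) (Perm (Fin N)) ℝ

/-- the subgroup of the permutations which fix all points `≥ n` -/
def Sn (n : ℕ) (g : Perm (Fin N)) : Prop := ∀ k : Fin N, n ≤ (k : ℕ) → g k = k

theorem Sn_one (n : ℕ) : Sn n (1 : Perm (Fin N)) := fun _ _ => rfl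

theorem Sn_mul {n : ℕ} {g h : Perm (Fin N)} (hg : Sn n g) (hh : Sn n h) : Sn n (g * h) := by
  intro k hk
  rw [Perm.mul_apply, hh k hk, hg k hk]

theorem Sn_inv {n : ℕ} {g : Perm (Fin N)} (hg : Sn n g) : Sn n g⁻¹ := by
  intro k hk
  rw [Perm.inv_eq_iff_eq, hg k hk]

theorem Sn_mono {n m : ℕ} (h : n ≤ m) {g : Perm (Fin N)} (hg : Sn n g) : Sn m g :=
  fun k hk => hg k (h.trans hk)

theorem Sn_mul_iff {n : ℕ} {g h : Perm (Fin N)} (hg : Sn n g) : Sn n (g * h) ↔ Sn n h :=
  ⟨fun hh => by simpa using Sn_mul (Sn_inv hg) hh, Sn_mul hg⟩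

theorem Sn_mul_iff' {n : ℕ} {g h : Perm (Fin N)} (hh : Sn n h) : Sn n (g * h) ↔ Sn n g :=
  ⟨fun hg => by simpa using Sn_mul hg (Sn_inv hh), fun hg => Sn_mul hg hh⟩

/-- left multiplication by `σ` -/
def U (σ : Perm (Fin N)) : Mat N := fun g h => if g = σ * h then 1 else 0

theorem U_one : U (1 : Perm (Fin N)) = 1 := by
  ext g h
  simp [U, Matrix.one_apply]

theorem U_mul_apply (σ : Perm (Fin N)) (T : Mat N) (g h : Perm (Fin N)) :
    (U σ * T) g h = T (σ⁻¹ * g) h := by
  rw [Matrix.mul_apply, Finset.sum_eq_single (σ⁻¹ * g)]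
  · simp [U]
  · intro b _ hb
    have : g ≠ σ * b := fun h => hb (by rw [h]; group)
    simp [U, this]
  · intro h
    exact absurd (mem_univ _) h

theorem mul_U_apply (σ : Perm (Fin N)) (T : Mat N) (g h : Perm (Fin N)) :
    (T * U σ) g h = T g (σ * h) := by
  rw [Matrix.mul_apply, Finset.sum_eq_single (σ * h)]
  · simp [U]
  · intro b _ hb
    simp [U, hb]
  · intro h
    exact absurd (mem_univ _) h

theorem U_mul (σ τ : Perm (Fin N)) : U σ * U τ = U (σ * τ) := by
  ext g h
  rw [U_mul_apply]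
  unfold U
  refine if_congr ?_ rfl rfl
  constructor
  · intro h
    rw [mul_assoc, ← h]; group
  · intro h
    rw [h]; group

theorem U_transpose (σ : Perm (Fin N)) : (U σ).transpose = U σ⁻¹ := by
  ext g h
  rw [Matrix.transpose_apply]
  unfold U
  refine if_congr ?_ rfl rfl
  constructor
  · intro h
    rw [h]; group
  · intro h
    rw [h]; group

/-- right invariance: membership in the group algebra -/
def Inv (T : Mat N) : Prop := ∀ g h k, T (g * k) (h * k) = T g h

/-- block diagonal with respect to `S_n` -/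
def Bd (n : ℕ) (T : Mat N) : Prop := ∀ g h, ¬ Sn n (g * h⁻¹) → T g h = 0

/-- the group algebra of `S_n` -/
def Al (n : ℕ) (T : Mat N) : Prop := Bd n T ∧ Inv T

theorem Inv_U (σ : Perm (Fin N)) : Inv (U σ) := by
  intro g h k
  unfold U
  refine if_congr ?_ rfl rfl
  rw [← mul_assoc, mul_left_inj]

theorem Inv.add {S T : Mat N} (hS : Inv S) (hT : Inv T) : Inv (S + T) := fun g h k => by
  rw [Matrix.add_apply, Matrix.add_apply, hS, hT]

theorem Inv.smul {T : Mat N} (c : ℝ) (hT : Inv T) : Inv (c • T) := fun g h k => by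
  rw [Matrix.smul_apply, Matrix.smul_apply, hT]

theorem Inv_zero : Inv (0 : Mat N) := fun _ _ _ => rfl

theorem Inv.mul {S T : Mat N} (hS : Inv S) (hT : Inv T) : Inv (S * T) := by
  intro g h k
  rw [Matrix.mul_apply, Matrix.mul_apply,
    ← Fintype.sum_equiv (Equiv.mulRight k) (fun x => S (g * k) (x * k) * T (x * k) (h * k))
      (fun x => S (g * k) x * T x (h * k)) fun x => rfl]
  refine Finset.sum_congr rfl fun x _ => ?_
  rw [hS, hT]

theorem Inv.transpose {T : Mat N} (hT : Inv T) : Inv T.transpose := fun g h k => by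
  rw [Matrix.transpose_apply, Matrix.transpose_apply, hT]

theorem Bd_U {n : ℕ} {σ : Perm (Fin N)} (h : Sn n σ) : Bd n (U σ) := by
  intro g k hg
  unfold U
  rw [if_neg]
  rintro rfl
  apply hg
  simpa using h

theorem Bd.mul {n : ℕ} {S T : Mat N} (hS : Bd n S) (hT : Bd n T) : Bd n (S * T) := by
  intro g h hg
  rw [Matrix.mul_apply]
  refine Finset.sum_eq_zero fun x _ => ?_
  by_cases h1 : Sn n (g * x⁻¹)
  · have h2 : ¬ Sn n (x * h⁻¹) := by
      intro h2
      apply hg
      have := Sn_mul h1 h2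
      simpa using this
    rw [hT _ _ h2, mul_zero]
  · rw [hS _ _ h1, zero_mul]

theorem Al_U {n : ℕ} {σ : Perm (Fin N)} (h : Sn n σ) : Al n (U σ) := ⟨Bd_U h, Inv_U σ⟩

theorem Al_one (n : ℕ) : Al n (1 : Mat N) := U_one ▸ Al_U (Sn_one n)

theorem Al_zero (n : ℕ) : Al n (0 : Mat N) := ⟨fun _ _ _ => rfl, Inv_zero⟩

theorem Al.add {n : ℕ} {S T : Mat N} (hS : Al n S) (hT : Al n T) : Al n (S + T) :=
  ⟨fun g h hg => by rw [Matrix.add_apply, hS.1 g h hg, hT.1 g h hg, add_zero], hS.2.add hT.2⟩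

theorem Al.smul {n : ℕ} {T : Mat N} (c : ℝ) (hT : Al n T) : Al n (c • T) :=
  ⟨fun g h hg => by rw [Matrix.smul_apply, hT.1 g h hg, smul_zero], hT.2.smul c⟩

theorem Al.sub {n : ℕ} {S T : Mat N} (hS : Al n S) (hT : Al n T) : Al n (S - T) := by
  have : S - T = S + (-1 : ℝ) • T := by simp [sub_eq_add_neg]
  rw [this]
  exact hS.add (hT.smul _)

theorem Al.mul {n : ℕ} {S T : Mat N} (hS : Al n S) (hT : Al n T) : Al n (S * T) :=
  ⟨hS.1.mul hT.1, hS.2.mul hT.2⟩

theorem Al.pow {n : ℕ} {T : Mat N} (hT : Al n T) : ∀ j : ℕ, Al n (T ^ j)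
  | 0 => by rw [pow_zero]; exact Al_one n
  | j + 1 => by rw [pow_succ]; exact (Al.pow hT j).mul hT

theorem Al.transpose {n : ℕ} {T : Mat N} (hT : Al n T) : Al n T.transpose := by
  refine ⟨fun g h hg => ?_, hT.2.transpose⟩
  rw [Matrix.transpose_apply]
  refine hT.1 _ _ fun hh => hg ?_
  have := Sn_inv hh
  simpa using this

theorem Al.mono {n m : ℕ} (h : n ≤ m) {T : Mat N} (hT : Al n T) : Al m T :=
  ⟨fun g k hg => hT.1 g k fun hh => hg (Sn_mono h hh), hT.2⟩

theorem Al.sum {ι : Type*} {n : ℕ} (s : Finset ι) (f : ι → Mat N) (h : ∀ i ∈ s, Al n (f i)) :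
    Al n (∑ i ∈ s, f i) := by
  classical
  induction s using Finset.induction_on with
  | empty => rw [sum_empty]; exact Al_zero n
  | insert a s ha ih =>
    rw [sum_insert ha]
    exact (h a (mem_insert_self _ _)).add (ih fun i hi => h i (mem_insert_of_mem hi))

theorem Al.aeval {n : ℕ} {T : Mat N} (hT : Al n T) (p : Polynomial ℝ) :
    Al n (Polynomial.aeval T p) := by
  rw [Polynomial.aeval_eq_sum_range]
  exact Al.sum _ _ fun i _ => (hT.pow i).smul _

/-- every element of the group algebra is a combination of the `U σ` -/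
theorem Inv.eq_sum {T : Mat N} (hT : Inv T) : T = ∑ σ, T σ 1 • U σ := by
  ext g h
  rw [Matrix.sum_apply, Finset.sum_eq_single (g * h⁻¹)]
  · rw [Matrix.smul_apply, ← hT (g * h⁻¹) 1 h]
    simp [U]
  · intro b _ hb
    have : g ≠ b * h := fun hh => hb (by rw [hh]; group)
    simp [U, this]
  · intro h
    exact absurd (mem_univ _) h

/-- an operator which commutes with `U σ` for `σ ∈ S_n` commutes with the group algebra -/
theorem Al.comm {n : ℕ} {T X : Mat N} (hT : Al n T)
    (hX : ∀ σ : Perm (Fin N), Sn n σ → U σ * X = X * U σ) : T * X = X * T := by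
  rw [hT.2.eq_sum, Finset.sum_mul, Finset.mul_sum]
  refine Finset.sum_congr rfl fun σ _ => ?_
  rw [Matrix.smul_mul, Matrix.mul_smul]
  by_cases hσ : Sn n σ
  · rw [hX σ hσ]
  · rw [hT.1 σ 1 (by simpa using hσ), zero_smul, zero_smul]

/-- conditional expectation -/
noncomputable def E (n : ℕ) (T : Mat N) : Mat N := by
  classical
  exact fun g h => if Sn n (g * h⁻¹) then T g h else 0

theorem E_apply_of {n : ℕ} {T : Mat N} {g h : Perm (Fin N)} (hg : Sn n (g * h⁻¹)) :
    E n T g h = T g h := if_pos hg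

theorem E_apply_not {n : ℕ} {T : Mat N} {g h : Perm (Fin N)} (hg : ¬ Sn n (g * h⁻¹)) :
    E n T g h = 0 := if_neg hg

theorem E_add (n : ℕ) (S T : Mat N) : E n (S + T) = E n S + E n T := by
  ext g h
  by_cases hg : Sn n (g * h⁻¹)
  · simp [E_apply_of hg]
  · simp [E_apply_not hg]

theorem E_smul (n : ℕ) (c : ℝ) (T : Mat N) : E n (c • T) = c • E n T := by
  ext g h
  by_cases hg : Sn n (g * h⁻¹)
  · simp [E_apply_of hg]
  · simp [E_apply_not hg]

theorem E_zero (n : ℕ) : E n (0 : Mat N) = 0 := by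
  ext g h
  by_cases hg : Sn n (g * h⁻¹)
  · simp [E_apply_of hg]
  · simp [E_apply_not hg]

/-- as a linear map -/
noncomputable def El (n : ℕ) : Mat N →ₗ[ℝ] Mat N where
  toFun := E n
  map_add' := E_add n
  map_smul' := E_smul n

theorem El_apply (n : ℕ) (T : Mat N) : El n T = E n T := rfl

theorem E_sum {ι : Type*} (n : ℕ) (s : Finset ι) (f : ι → Mat N) :
    E n (∑ i ∈ s, f i) = ∑ i ∈ s, E n (f i) := by
  rw [← El_apply, map_sum]
  rfl

theorem E_mul_left {n : ℕ} {A : Mat N} (hA : Bd n A) (T : Mat N) : E n (A * T) = A * E n T := by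
  ext g h
  rw [Matrix.mul_apply]
  by_cases hg : Sn n (g * h⁻¹)
  · rw [E_apply_of hg, Matrix.mul_apply]
    refine Finset.sum_congr rfl fun x _ => ?_
    by_cases hx : Sn n (g * x⁻¹)
    · have : Sn n (x * h⁻¹) := by
        have := Sn_mul (Sn_inv hx) hg
        simpa using this
      rw [E_apply_of this]
    · rw [hA _ _ hx, zero_mul, zero_mul]
  · rw [E_apply_not hg]
    symm
    refine Finset.sum_eq_zero fun x _ => ?_
    by_cases hx : Sn n (g * x⁻¹)
    · have : ¬ Sn n (x * h⁻¹) := by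
        intro hh
        apply hg
        have := Sn_mul hx hh
        simpa using this
      rw [E_apply_not this, mul_zero]
    · rw [hA _ _ hx, zero_mul]

theorem E_transpose (n : ℕ) (T : Mat N) : E n T.transpose = (E n T).transpose := by
  ext g h
  rw [Matrix.transpose_apply]
  by_cases hg : Sn n (g * h⁻¹)
  · have : Sn n (h * g⁻¹) := by simpa using Sn_inv hg
    rw [E_apply_of hg, E_apply_of this, Matrix.transpose_apply]
  · have : ¬ Sn n (h * g⁻¹) := by
      intro hh
      apply hg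
      simpa using Sn_inv hh
    rw [E_apply_not hg, E_apply_not this]

theorem E_mul_right {n : ℕ} {A : Mat N} (hA : Al n A) (T : Mat N) : E n (T * A) = E n T * A := by
  have h1 := E_mul_left hA.transpose.1 T.transpose
  rw [← Matrix.transpose_mul, E_transpose, E_transpose, ← Matrix.transpose_mul] at h1
  exact Matrix.transpose_injective h1

theorem E_of_Al {n : ℕ} {A : Mat N} (hA : Bd n A) : E n A = A := by
  ext g h
  by_cases hg : Sn n (g * h⁻¹)
  · rw [E_apply_of hg]
  · rw [E_apply_not hg, hA _ _ hg]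

theorem E_Bd (n : ℕ) (T : Mat N) : Bd n (E n T) := fun _ _ hg => E_apply_not hg

theorem E_Inv {n : ℕ} {T : Mat N} (hT : Inv T) : Inv (E n T) := by
  intro g h k
  have e : g * k * (h * k)⁻¹ = g * h⁻¹ := by group
  by_cases hg : Sn n (g * h⁻¹)
  · rw [E_apply_of hg, E_apply_of (by rw [e]; exact hg), hT]
  · rw [E_apply_not hg, E_apply_not (by rw [e]; exact hg)]

theorem E_Al {n : ℕ} {T : Mat N} (hT : Inv T) : Al n (E n T) := ⟨E_Bd n T, E_Inv hT⟩

theorem E_E {n m : ℕ} (h : n ≤ m) (T : Mat N) : E n (E m T) = E n T := by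
  ext g k
  by_cases hg : Sn n (g * k⁻¹)
  · rw [E_apply_of hg, E_apply_of hg, E_apply_of (Sn_mono h hg)]
  · rw [E_apply_not hg, E_apply_not hg]

/-- faithfulness -/
theorem eq_zero_of_E {n : ℕ} {T : Mat N} (h : E n (T.transpose * T) = 0) : T = 0 := by
  have h1 : ∀ k, (T.transpose * T) k k = 0 := by
    intro k
    have : Sn n (k * k⁻¹) := by rw [mul_inv_cancel]; exact Sn_one n
    have e := E_apply_of (T := T.transpose * T) this
    rw [h] at e
    exact e.symm
  ext g k
  have h2 := h1 k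
  rw [Matrix.mul_apply] at h2
  have h3 : ∀ x ∈ (univ : Finset (Perm (Fin N))), 0 ≤ T.transpose k x * T x k := by
    intro x _
    rw [Matrix.transpose_apply]
    exact mul_self_nonneg _
  have h4 := (Finset.sum_eq_zero_iff_of_nonneg h3).1 h2 g (mem_univ _)
  rw [Matrix.transpose_apply] at h4
  simpa using mul_self_eq_zero.1 h4

section jm

/-- the shifted Jucys-Murphy element `c + ∑_{i < n} (i n)` -/
noncomputable def X (c : ℝ) (n : ℕ) : Mat N :=
  c • 1 + ∑ i : Fin N, ∑ j : Fin N, if (i : ℕ) < j ∧ (j : ℕ) = n then U (swap i j) else 0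

theorem X_eq (c : ℝ) {n : ℕ} (hn : n < N) :
    X c n = c • (1 : Mat N) +
      ∑ i : Fin N, if (i : ℕ) < n then U (swap i ⟨n, hn⟩) else 0 := by
  unfold X
  congr 1
  refine Finset.sum_congr rfl fun i _ => ?_
  rw [Finset.sum_eq_single ⟨n, hn⟩]
  · simp
  · intro b _ hb
    rw [if_neg]
    rintro ⟨-, h⟩
    exact hb (Fin.ext h)
  · intro h
    exact absurd (mem_univ _) h

theorem swap_Sn {n : ℕ} {i j : Fin N} (hi : (i : ℕ) < n) (hj : (j : ℕ) < n) :
    Sn n (swap i j) := by
  intro k hk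
  refine swap_apply_of_ne_of_ne ?_ ?_
  · rintro rfl; omega
  · rintro rfl; omega

theorem X_Al (c : ℝ) (n : ℕ) : Al (n + 1) (X c n : Mat N) := by
  refine ((Al_one _).smul c).add (Al.sum _ _ fun i _ => Al.sum _ _ fun j _ => ?_)
  split_ifs with h
  · exact Al_U (swap_Sn (by omega) (by omega))
  · exact Al_zero _

theorem X_symm (c : ℝ) (n : ℕ) : (X c n : Mat N).transpose = X c n := by
  unfold X
  rw [Matrix.transpose_add, Matrix.transpose_smul, Matrix.transpose_one, Matrix.transpose_sum]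
  congr 1
  refine Finset.sum_congr rfl fun i _ => ?_
  rw [Matrix.transpose_sum]
  refine Finset.sum_congr rfl fun j _ => ?_
  split_ifs
  · rw [U_transpose, swap_inv]
  · exact Matrix.transpose_zero

theorem Sn_lt {n : ℕ} {σ : Perm (Fin N)} (hσ : Sn n σ) {i : Fin N} (hi : (i : ℕ) < n) :
    ((σ i : Fin N) : ℕ) < n := by
  by_contra h
  rw [not_lt] at h
  have h1 := hσ (σ i) h
  have h2 := σ.injective h1
  rw [h2] at h
  omega

theorem U_X (c : ℝ) {n : ℕ} (hn : n < N) {σ : Perm (Fin N)} (hσ : Sn n σ) :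
    U σ * X c n = X c n * U σ := by
  rw [X_eq c hn, mul_add, add_mul, Matrix.mul_smul, Matrix.smul_mul, mul_one, one_mul,
    Finset.mul_sum, Finset.sum_mul]
  congr 1
  have hs : σ ⟨n, hn⟩ = ⟨n, hn⟩ := hσ _ le_rfl
  rw [← Fintype.sum_equiv σ
    (fun i => (if ((σ i : Fin N) : ℕ) < n then U (swap (σ i) ⟨n, hn⟩) else 0) * U σ)
    (fun i => (if (i : ℕ) < n then U (swap i ⟨n, hn⟩) else 0) * U σ) fun i => rfl]
  refine Finset.sum_congr rfl fun i _ => ?_
  by_cases hi : (i : ℕ) < n
  · rw [if_pos hi, if_pos (Sn_lt hσ hi), U_mul, U_mul]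
    congr 1
    have := Equiv.swap_apply_apply σ i ⟨n, hn⟩
    rw [hs] at this
    rw [this]
    group
  · have h1 : ¬ ((σ i : Fin N) : ℕ) < n := by
      rw [hσ i (by omega)]
      exact hi
    rw [if_neg hi, if_neg h1, mul_zero, zero_mul]

theorem X_comm (c : ℝ) {n : ℕ} (hn : n < N) {T : Mat N} (hT : Al n T) :
    T * X c n = X c n * T := hT.comm fun _ hσ => U_X c hn hσ

/-- the adjacent transposition `(n, n+1)` -/
def s (n : ℕ) (h : n + 1 < N) : Perm (Fin N) := swap ⟨n, by omega⟩ ⟨n + 1, h⟩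

theorem s_mul (n : ℕ) (h : n + 1 < N) : s n h * s n h = 1 := swap_mul_self _ _

theorem s_inv (n : ℕ) (h : n + 1 < N) : (s n h)⁻¹ = s n h := swap_inv _ _

theorem s_Sn (n : ℕ) (h : n + 1 < N) : Sn (n + 2) (s n h) :=
  swap_Sn (by simp) (by simp)

theorem s_not (n : ℕ) (h : n + 1 < N) : ¬ Sn (n + 1) (s n h) := by
  intro hh
  have := hh ⟨n + 1, h⟩ le_rfl
  unfold s at this
  rw [swap_apply_right] at this
  have := congrArg Fin.val this
  simp at this

theorem U_s_sq (n : ℕ) (h : n + 1 < N) : U (s n h) * U (s n h) = 1 := by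
  rw [U_mul, s_mul, U_one]

/-- `s` commutes with `S_n` -/
theorem s_comm {n : ℕ} (h : n + 1 < N) {σ : Perm (Fin N)} (hσ : Sn n σ) :
    σ * s n h = s n h * σ := by
  have := Equiv.swap_apply_apply σ ⟨n, by omega⟩ ⟨n + 1, h⟩
  rw [hσ ⟨n, by omega⟩ le_rfl, hσ ⟨n + 1, h⟩ (by simp)] at this
  unfold s
  nth_rewrite 2 [this]
  group

theorem s_commA {n : ℕ} (h : n + 1 < N) {T : Mat N} (hT : Al n T) :
    T * U (s n h) = U (s n h) * T :=
  hT.comm fun σ hσ => by rw [U_mul, U_mul, s_comm h hσ]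

/-- the basic relation -/
theorem X_s (c : ℝ) {n : ℕ} (h : n + 1 < N) :
    X c (n + 1) * U (s n h) = U (s n h) * X c n + 1 := by
  rw [X_eq c h, X_eq c (by omega : n < N), add_mul, mul_add, Matrix.smul_mul, Matrix.mul_smul,
    one_mul, mul_one, add_assoc, Finset.sum_mul, Finset.mul_sum]
  congr 1
  have key : ∀ i : Fin N, (if (i : ℕ) < n + 1 then U (swap i ⟨n + 1, h⟩) else 0) * U (s n h) =
      U (s n h) * (if (i : ℕ) < n then U (swap i ⟨n, by omega⟩) else 0) +
        if i = ⟨n, by omega⟩ then 1 else 0 := by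
    intro i
    rcases lt_trichotomy (i : ℕ) n with hi | hi | hi
    · have h1 : i ≠ ⟨n, by omega⟩ := fun hh => by rw [hh] at hi; simp at hi
      have h2 : i ≠ ⟨n + 1, h⟩ := fun hh => by rw [hh] at hi; simp at hi
      rw [if_pos hi, if_pos (show (i : ℕ) < n + 1 by omega), if_neg h1, add_zero, U_mul, U_mul]
      congr 1
      unfold s
      have := Equiv.swap_apply_apply (swap (⟨n, by omega⟩ : Fin N) ⟨n + 1, h⟩) i ⟨n, by omega⟩
      rw [swap_apply_left, swap_apply_of_ne_of_ne h1 h2] at this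
      rw [this]
      simp [mul_assoc]
    · have h1 : i = ⟨n, by omega⟩ := Fin.ext hi
      rw [if_neg (show ¬ (i : ℕ) < n by omega), if_pos (show (i : ℕ) < n + 1 by omega),
        if_pos h1, mul_zero, zero_add, h1]
      exact U_s_sq n h
    · have h1 : i ≠ ⟨n, by omega⟩ := fun hh => by rw [hh] at hi; simp at hi
      rw [if_neg (show ¬ (i : ℕ) < n by omega), if_neg (show ¬ (i : ℕ) < n + 1 by omega),
        if_neg h1]
      simp
  rw [Finset.sum_congr rfl fun i _ => key i, Finset.sum_add_distrib, Finset.sum_ite_eq']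
  simp

theorem E_s {n : ℕ} (h : n + 1 < N) : E (n + 1) (U (s n h)) = 0 := by
  ext g k
  by_cases hg : Sn (n + 1) (g * k⁻¹)
  · rw [E_apply_of hg]
    unfold U
    rw [if_neg]
    · rfl
    · rintro rfl
      apply s_not n h
      simpa using hg
  · rw [E_apply_not hg]
    rfl

theorem conj_Sn {n : ℕ} (h : n + 1 < N) {σ : Perm (Fin N)} (h1 : Sn (n + 1) σ)
    (h2 : Sn (n + 1) (s n h * σ * s n h)) : Sn n σ := by
  intro k hk
  rcases eq_or_lt_of_le hk with hk | hk
  · have e : k = ⟨n, by omega⟩ := Fin.ext hk.symm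
    have h3 := h2 ⟨n + 1, h⟩ le_rfl
    rw [Perm.mul_apply, Perm.mul_apply] at h3
    have h4 : s n h ⟨n + 1, h⟩ = k := by
      unfold s
      rw [swap_apply_right, e]
    rw [h4] at h3
    have h5 : s n h (s n h (σ k)) = s n h ⟨n + 1, h⟩ := by rw [h3]
    rw [h4] at h5
    rwa [← Perm.mul_apply, s_mul, Perm.one_apply] at h5
  · exact h1 k hk

theorem E_conj {n : ℕ} (h : n + 1 < N) {T : Mat N} (hT : Al (n + 1) T) :
    E (n + 1) (U (s n h) * T * U (s n h)) = E n T := by
  ext g k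
  have e1 : (U (s n h) * T * U (s n h)) g k = T (s n h * g) (s n h * k) := by
    rw [mul_U_apply, U_mul_apply, s_inv]
  by_cases hg : Sn n (g * k⁻¹)
  · rw [E_apply_of hg, E_apply_of (Sn_mono (by omega) hg), e1]
    -- `T` is right invariant and `s` commutes with `g k⁻¹`
    have e2 := s_comm h hg
    have e3 : s n h * g = g * k⁻¹ * (s n h * k) := by
      rw [← mul_assoc, e2]
      group
    rw [e3]
    have e4 := hT.2 (g * k⁻¹) 1 (s n h * k)
    rw [one_mul] at e4
    have e5 := hT.2 (g * k⁻¹) 1 k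
    rw [one_mul] at e5
    rw [e4, ← e5]
    simp
  · rw [E_apply_not hg]
    by_cases hg1 : Sn (n + 1) (g * k⁻¹)
    · rw [E_apply_of hg1, e1]
      refine hT.1 _ _ fun hh => hg (conj_Sn h hg1 ?_)
      have : s n h * g * (s n h * k)⁻¹ = s n h * (g * k⁻¹) * s n h := by
        rw [mul_inv_rev, s_inv]
        group
      rwa [this] at hh
    · rw [E_apply_not hg1]

end jm

end Pool.JM
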