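import Pool.Agent.Work.MP_46fa68_R.Beta
import Pool.Agent.Work.MP_46fa68_R.Mat

/-! # Idempotents of the group algebra of the symmetric group, from the Jucys-Murphy elements -/

set_option autoImplicit false

open Finset Equiv

namespace Pool.JM

variable {N : ℕ}

/-- Lagrange basis polynomial at the movable beads -/
noncomputable def ell (C : Finset ℕ) (x : ℕ) : Polynomial ℝ :=
  Lagrange.basis (ad C) (fun y : ℕ => (y : ℝ)) x

/-- the idempotents of level `n` -/
noncomputable def P (N M : ℕ) : ℕ → Finset ℕ → Mat N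
  | 0, B => if B = range M then 1 else 0
  | n + 1, B => ∑ q ∈ (Lv M n).sigma fun C => ad C,
      if mv q.1 q.2 = B then
        P N M n q.1 * Polynomial.aeval (X ((M : ℝ) - 1) n) (ell q.1 q.2) else 0

/-- the pieces -/
noncomputable def Pc (N M n : ℕ) (C : Finset ℕ) (x : ℕ) : Mat N :=
  P N M n C * Polynomial.aeval (X ((M : ℝ) - 1) n) (ell C x)

/-- the invariants -/
structure Good (N M n : ℕ) : Prop where
  al : ∀ C, Al n (P N M n C)
  symm : ∀ C, (P N M n C).transpose = P N M n C
  idem : ∀ C, P N M n C * P N M n C = P N M n C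
  orth : ∀ C C', C ≠ C' → P N M n C * P N M n C' = 0
  tot : ∑ C ∈ Lv M n, P N M n C = 1
  mom : n < N → ∀ C ∈ Lv M n, ∀ p : Polynomial ℝ,
    E n (Polynomial.aeval (X ((M : ℝ) - 1) n : Mat N) p) * P N M n C =
      (∑ x ∈ C, w C x * p.eval (x : ℝ)) • P N M n C

section general

theorem aeval_comm {T Z : Mat N} (h : T * Z = Z * T) (p : Polynomial ℝ) :
    T * Polynomial.aeval Z p = Polynomial.aeval Z p * T := by
  rw [Polynomial.aeval_eq_sum_range, Finset.mul_sum, Finset.sum_mul]
  refine Finset.sum_congr rfl fun i _ => ?_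
  rw [Matrix.mul_smul, Matrix.smul_mul]
  have : Commute T (Z ^ i) := (show Commute T Z from h).pow_right i
  rw [this.eq]

theorem aeval_symm {Z : Mat N} (h : Z.transpose = Z) (p : Polynomial ℝ) :
    (Polynomial.aeval Z p).transpose = Polynomial.aeval Z p := by
  rw [Polynomial.aeval_eq_sum_range, Matrix.transpose_sum]
  refine Finset.sum_congr rfl fun i _ => ?_
  rw [Matrix.transpose_smul, Matrix.transpose_pow, h]

theorem aeval_eig {Z T : Mat N} {x : ℝ} (h : Z * T = x • T) (p : Polynomial ℝ) :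
    Polynomial.aeval Z p * T = p.eval x • T := by
  have hp : ∀ i : ℕ, Z ^ i * T = x ^ i • T := by
    intro i
    induction i with
    | zero => simp
    | succ i ih =>
      rw [pow_succ, mul_assoc, h, Matrix.mul_smul, ih, smul_smul, pow_succ, mul_comm]
  rw [Polynomial.aeval_eq_sum_range, Finset.sum_mul, Polynomial.eval_eq_sum_range,
    Finset.sum_smul]
  refine Finset.sum_congr rfl fun i _ => ?_
  rw [Matrix.smul_mul, hp, smul_smul]

end general

section pieces

variable {M n : ℕ}

theorem Good.nod (hg : Good N M n) (hn : n < N) {C : Finset ℕ} (hC : C ∈ Lv M n) :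
    P N M n C * Polynomial.aeval (X ((M : ℝ) - 1) n)
      (Lagrange.nodal (ad C) fun y : ℕ => (y : ℝ)) = 0 := by
  set Z : Mat N := X ((M : ℝ) - 1) n with hZ
  set q := Lagrange.nodal (ad C) fun y : ℕ => (y : ℝ) with hq
  have hcomm : ∀ p : Polynomial ℝ, P N M n C * Polynomial.aeval Z p =
      Polynomial.aeval Z p * P N M n C :=
    fun p => aeval_comm (X_comm _ hn (hg.al C)) p
  have hsym : ∀ p : Polynomial ℝ, (Polynomial.aeval Z p).transpose = Polynomial.aeval Z p :=
    fun p => aeval_symm (X_symm _ n) p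
  apply eq_zero_of_E (n := n)
  have e1 : (P N M n C * Polynomial.aeval Z q).transpose * (P N M n C * Polynomial.aeval Z q) =
      Polynomial.aeval Z (q * q) * P N M n C := by
    rw [Matrix.transpose_mul, hg.symm, hsym, map_mul, mul_assoc, ← mul_assoc (P N M n C),
      hg.idem, hcomm, ← mul_assoc]
  rw [e1, E_mul_right (hg.al C), hg.mom hn C hC]
  have e2 : ∑ x ∈ C, w C x * (q * q).eval (x : ℝ) = 0 := by
    refine Finset.sum_eq_zero fun x hx => ?_
    by_cases h : x + 1 ∈ C
    · rw [w_zero h, zero_mul]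
    · have : q.eval (x : ℝ) = 0 := by
        rw [hq]
        exact Lagrange.eval_nodal_at_node (v := fun y : ℕ => (y : ℝ)) (mem_ad.2 ⟨hx, h⟩)
      rw [Polynomial.eval_mul, this, mul_zero, mul_zero]
  rw [e2, zero_smul]

theorem ell_mul {C : Finset ℕ} {x : ℕ} (hx : x ∈ ad C) :
    ∃ a : ℝ, (Polynomial.X - Polynomial.C (x : ℝ)) * ell C x =
      Polynomial.C a * Lagrange.nodal (ad C) fun y : ℕ => (y : ℝ) := by
  refine ⟨Lagrange.nodalWeight (ad C) (fun y : ℕ => (y : ℝ)) x, ?_⟩
  unfold ell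
  rw [Lagrange.basis_eq_prod_sub_inv_mul_nodal_div hx, ← Lagrange.nodal_erase_eq_nodal_div hx,
    Lagrange.nodal_eq_mul_nodal_erase hx]
  ring

theorem Good.eig (hg : Good N M n) (hn : n < N) {C : Finset ℕ} (hC : C ∈ Lv M n) {x : ℕ}
    (hx : x ∈ ad C) : X ((M : ℝ) - 1) n * Pc N M n C x = (x : ℝ) • Pc N M n C x := by
  obtain ⟨a, ha⟩ := ell_mul hx
  set Z : Mat N := X ((M : ℝ) - 1) n with hZ
  have h1 : P N M n C * Polynomial.aeval Z
      ((Polynomial.X - Polynomial.C (x : ℝ)) * ell C x) = 0 := by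
    rw [ha, map_mul, Polynomial.aeval_C, Algebra.algebraMap_eq_smul_one, Matrix.smul_mul, one_mul,
      Matrix.mul_smul, hg.nod hn hC, smul_zero]
  rw [map_mul, ← mul_assoc, map_sub, Polynomial.aeval_X, Polynomial.aeval_C,
    Algebra.algebraMap_eq_smul_one, mul_sub, X_comm _ hn (hg.al C), Matrix.mul_smul, mul_one,
    sub_mul, Matrix.smul_mul, mul_assoc, sub_eq_zero] at h1
  exact h1

theorem Good.comm (hg : Good N M n) (hn : n < N) (C : Finset ℕ) (p : Polynomial ℝ) :
    P N M n C * Polynomial.aeval (X ((M : ℝ) - 1) n) p =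
      Polynomial.aeval (X ((M : ℝ) - 1) n) p * P N M n C :=
  aeval_comm (X_comm _ hn (hg.al C)) p

theorem Good.pc_al (hg : Good N M n) (C : Finset ℕ) (x : ℕ) : Al (n + 1) (Pc N M n C x) :=
  ((hg.al C).mono (by omega)).mul ((X_Al _ n).aeval _)

theorem Good.pc_symm (hg : Good N M n) (hn : n < N) (C : Finset ℕ) (x : ℕ) :
    (Pc N M n C x).transpose = Pc N M n C x := by
  unfold Pc
  rw [Matrix.transpose_mul, hg.symm, aeval_symm (X_symm _ n), hg.comm hn]

theorem Good.pc_mul (hg : Good N M n) (hn : n < N) {C C' : Finset ℕ}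
    (hC' : C' ∈ Lv M n) {x x' : ℕ} (hx' : x' ∈ ad C') :
    Pc N M n C x * Pc N M n C' x' = if C = C' ∧ x = x' then Pc N M n C' x' else 0 := by
  have h1 : Pc N M n C x * Pc N M n C' x' =
      P N M n C * ((ell C x).eval (x' : ℝ) • Pc N M n C' x') := by
    rw [← aeval_eig (hg.eig hn hC' hx')]
    unfold Pc
    rw [mul_assoc]
  rw [h1]
  by_cases hCC : C = C'
  · subst hCC
    have h2 : P N M n C * Pc N M n C x' = Pc N M n C x' := by
      unfold Pc
      rw [← mul_assoc, hg.idem]
    rw [Matrix.mul_smul, h2]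
    by_cases hxx : x = x'
    · subst hxx
      rw [if_pos ⟨rfl, rfl⟩]
      unfold ell
      rw [Lagrange.eval_basis_self (inj _) hx', one_smul]
    · rw [if_neg fun h => hxx h.2]
      unfold ell
      rw [Lagrange.eval_basis_of_ne (v := fun y : ℕ => (y : ℝ)) hxx hx', zero_smul]
  · rw [if_neg fun h => hCC h.1, Matrix.mul_smul]
    have h2 : P N M n C * Pc N M n C' x' = 0 := by
      unfold Pc
      rw [← mul_assoc, hg.orth C C' hCC, zero_mul]
    rw [h2, smul_zero]

theorem pc_sum {C : Finset ℕ} (hC : C ∈ Lv M n) (hn : n < M) :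
    ∑ x ∈ ad C, Pc N M n C x = P N M n C := by
  have h0 : C.Nonempty := ⟨0, Lv_zero_mem hC hn⟩
  unfold Pc
  rw [← Finset.mul_sum, ← map_sum]
  unfold ell
  rw [Lagrange.sum_basis (inj _) (ad_nonempty h0), map_one, mul_one]

/-- the conditional expectation of a piece -/
theorem Good.pc_E (hg : Good N M n) (hn : n < N) {C : Finset ℕ} (hC : C ∈ Lv M n) {x : ℕ}
    (hx : x ∈ ad C) : E n (Pc N M n C x) = w C x • P N M n C := by
  unfold Pc
  rw [hg.comm hn, E_mul_right (hg.al C), hg.mom hn C hC]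
  congr 1
  rw [Finset.sum_eq_single x]
  · unfold ell
    rw [Lagrange.eval_basis_self (inj _) hx, mul_one]
  · intro y hy hyx
    by_cases h : y + 1 ∈ C
    · rw [w_zero h, zero_mul]
    · unfold ell
      rw [Lagrange.eval_basis_of_ne (v := fun y : ℕ => (y : ℝ)) (Ne.symm hyx)
        (mem_ad.2 ⟨hy, h⟩), mul_zero]
  · intro h
    exact absurd (mem_ad.1 hx).1 h

end pieces

section key

variable {M n : ℕ}

theorem key (hg : Good N M n) (hn : n + 1 < N) (hM : n + 1 < M) {C : Finset ℕ} (hC : C ∈ Lv M n)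
    {u : ℕ} (hu : u ∈ ad C) (p : Polynomial ℝ) :
    E (n + 1) (Polynomial.aeval (X ((M : ℝ) - 1) (n + 1)) p) * Pc N M n C u =
      (∑ x ∈ mv C u, w (mv C u) x * p.eval (x : ℝ)) • Pc N M n C u := by
  have hn' : n < N := by omega
  have hB0 : 0 ∈ mv C u := Lv_zero_mem (mv_mem hC hu) hM
  obtain ⟨hu1, hu2⟩ := mem_ad.1 hu
  set R : Mat N := Pc N M n C u with hR
  set s' : Mat N := U (s n hn) with hs'
  set D : Mat N := X ((M : ℝ) - 1) (n + 1) - (u : ℝ) • 1 with hD
  set Y : Mat N := X ((M : ℝ) - 1) n - (u : ℝ) • 1 with hY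
  have ss : s' * s' = 1 := U_s_sq n hn
  have hRal : Al (n + 1) R := hg.pc_al C u
  have hRR : R * R = R := by
    have := hg.pc_mul hn' (C := C) hC (x := u) hu
    rw [if_pos ⟨rfl, rfl⟩] at this
    exact this
  have hYal : Al (n + 1) Y := (X_Al _ n).sub ((Al_one _).smul _)
  have hYR : Y * R = 0 := by
    rw [hY, sub_mul, Matrix.smul_mul, one_mul, hg.eig hn' hC hu, sub_self]
  have hRY : R * Y = 0 := by
    have h1 := congrArg Matrix.transpose hYR
    rw [Matrix.transpose_mul, Matrix.transpose_zero, hg.pc_symm hn', hY, Matrix.transpose_sub,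
      Matrix.transpose_smul, Matrix.transpose_one, X_symm] at h1
    exact h1
  have hDcomm : ∀ T : Mat N, Al (n + 1) T → T * D = D * T := by
    intro T hT
    rw [hD, mul_sub, sub_mul, X_comm _ hn hT, Matrix.mul_smul, Matrix.smul_mul, mul_one, one_mul]
  have hDp : ∀ (T : Mat N) (i : ℕ), Al (n + 1) T → T * D ^ i = D ^ i * T := by
    intro T i hT
    exact ((show Commute T D from hDcomm T hT).pow_right i).eq
  have hDs : D * s' = s' * Y + 1 := by
    rw [hD, hY, sub_mul, mul_sub, hs', X_s, Matrix.smul_mul, Matrix.mul_smul, one_mul, mul_one]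
    abel
  have hDss : D = s' * Y * s' + s' := by
    calc D = D * s' * s' := by rw [mul_assoc, ss, mul_one]
      _ = _ := by rw [hDs, add_mul, one_mul]
  have hRDY : ∀ i k : ℕ, 1 ≤ k → R * D ^ i * Y ^ k = 0 := by
    intro i k hk
    obtain ⟨k, rfl⟩ : ∃ k', k = k' + 1 := ⟨k - 1, by omega⟩
    rw [hDp R i hRal, mul_assoc, pow_succ', ← mul_assoc R, hRY, zero_mul, mul_zero]
  -- (a)
  have ha : ∀ i k : ℕ, 1 ≤ k → R * D ^ i * (s' * Y ^ k * s') * R =
      R * (s' * Y ^ (k + i) * s') * R := by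
    intro i
    induction i with
    | zero => intro k _; simp
    | succ i ih =>
      intro k hk
      have e1 : D ^ (i + 1) * (s' * Y ^ k * s') =
          D ^ i * (s' * Y ^ (k + 1) * s') + D ^ i * Y ^ k * s' := by
        rw [pow_succ, mul_assoc (D ^ i), ← mul_assoc D, ← mul_assoc D, hDs, pow_succ' Y k]
        noncomm_ring
      rw [mul_assoc R (D ^ (i + 1)), e1, mul_add, add_mul, ← mul_assoc R (D ^ i),
        ih (k + 1) (by omega), ← mul_assoc R (D ^ i * Y ^ k), ← mul_assoc R (D ^ i),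
        hRDY i k hk, zero_mul, zero_mul, add_zero]
      congr 5
      omega
  -- (b)
  have hb : ∀ j : ℕ, R * D ^ (j + 2) * R = R * (s' * Y ^ (j + 2) * s') * R + R * D ^ j * R := by
    intro j
    have e1 : D ^ (j + 2) = D ^ (j + 1) * (s' * Y ^ 1 * s') + D ^ j * (s' * Y + 1) := by
      have : D ^ j * (s' * Y + 1) = D ^ (j + 1) * s' := by
        rw [← hDs, pow_succ, mul_assoc]
      rw [this, ← mul_add, pow_one, ← hDss, ← pow_succ]
    rw [e1, mul_add, add_mul, ← mul_assoc R (D ^ (j + 1)), ha (j + 1) 1 le_rfl,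
      show 1 + (j + 1) = j + 2 by omega]
    congr 1
    rw [mul_add (D ^ j), mul_one, mul_add, add_mul, ← mul_assoc (D ^ j), ← mul_assoc R,
      mul_assoc (R * (D ^ j * s')) Y R, hYR, mul_zero, zero_add]
  -- conditional expectations
  have hE1 : ∀ T : Mat N, E (n + 1) (R * T * R) = R * E (n + 1) T * R := by
    intro T
    rw [E_mul_right hRal, E_mul_left hRal.1]
  have hED : ∀ j : ℕ, R * E (n + 1) (D ^ j) * R = E (n + 1) (D ^ j) * R := by
    intro j
    rw [← E_mul_left hRal.1, hDp R j hRal, E_mul_right hRal, mul_assoc, hRR]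
  have hEY : ∀ j : ℕ, R * E (n + 1) (s' * Y ^ j * s') * R = Pool.JM.mom C u j • R := by
    intro j
    have e1 : E (n + 1) (s' * Y ^ j * s') = E n (Y ^ j) := E_conj hn (hYal.pow j)
    have e2 : Y ^ j = Polynomial.aeval (X ((M : ℝ) - 1) n : Mat N)
        ((Polynomial.X - Polynomial.C (u : ℝ)) ^ j) := by
      rw [map_pow, map_sub, Polynomial.aeval_X, Polynomial.aeval_C,
        Algebra.algebraMap_eq_smul_one]
    have e3 : E n (Y ^ j) * R = Pool.JM.mom C u j • R := by
      rw [hR]
      unfold Pc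
      rw [← mul_assoc, e2, hg.mom hn' C hC, Matrix.smul_mul]
      congr 1
      unfold Pool.JM.mom
      refine Finset.sum_congr rfl fun x _ => ?_
      rw [Polynomial.eval_pow, Polynomial.eval_sub, Polynomial.eval_X, Polynomial.eval_C]
    rw [e1, mul_assoc, e3, Matrix.mul_smul, hRR]
  -- the moments
  have hm : ∀ j : ℕ, E (n + 1) (D ^ j) * R = Pool.JM.mom (mv C u) u j • R ∧
      E (n + 1) (D ^ (j + 1)) * R = Pool.JM.mom (mv C u) u (j + 1) • R := by
    intro j
    induction j with
    | zero =>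
      constructor
      · rw [pow_zero, E_of_Al (Al_one _).1, one_mul, mom_zero _ hB0, one_smul]
      · rw [← hED, zero_add, ← hE1, pow_one]
        have e1 : R * D * R = R * (s' * Y ^ 1 * s') * R + R * s' * R := by
          nth_rewrite 1 [hDss]
          rw [pow_one, mul_add, add_mul]
        rw [e1, E_add, hE1, hE1, hEY, E_s, mul_zero, zero_mul, add_zero,
          mom_one hu1 hu2 hB0]
    | succ j ih =>
      refine ⟨ih.2, ?_⟩
      rw [← hED, show j + 1 + 1 = j + 2 by omega, ← hE1, hb, E_add, hE1, hE1, hEY, hED, ih.1,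
        mom_two hu1 hu2, add_smul]
  -- general polynomials
  set q := p.comp (Polynomial.X + Polynomial.C (u : ℝ)) with hq
  have e1 : Polynomial.aeval (X ((M : ℝ) - 1) (n + 1) : Mat N) p = Polynomial.aeval D q := by
    rw [hq, Polynomial.aeval_comp, map_add, Polynomial.aeval_X, Polynomial.aeval_C,
      Algebra.algebraMap_eq_smul_one, hD, sub_add_cancel]
  have e2 : ∀ x : ℝ, p.eval x = ∑ i ∈ range (q.natDegree + 1), q.coeff i * (x - u) ^ i := by
    intro x
    rw [← Polynomial.eval_eq_sum_range, hq, Polynomial.eval_comp, Polynomial.eval_add,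
      Polynomial.eval_X, Polynomial.eval_C, sub_add_cancel]
  rw [e1, Polynomial.aeval_eq_sum_range, E_sum, Finset.sum_mul]
  have e3 : ∀ i ∈ range (q.natDegree + 1), E (n + 1) (q.coeff i • D ^ i) * R =
      (q.coeff i * Pool.JM.mom (mv C u) u i) • R := by
    intro i _
    rw [E_smul, Matrix.smul_mul, (hm i).1, smul_smul]
  rw [Finset.sum_congr rfl e3, ← Finset.sum_smul]
  congr 1
  unfold Pool.JM.mom
  simp_rw [e2, Finset.mul_sum]
  rw [Finset.sum_comm]
  refine Finset.sum_congr rfl fun x _ => Finset.sum_congr rfl fun i _ => ?_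
  ring

end key

section induct

variable {M : ℕ}

theorem P_succ (n : ℕ) (B : Finset ℕ) : P N M (n + 1) B =
    ∑ q ∈ (Lv M n).sigma fun C => ad C, if mv q.1 q.2 = B then Pc N M n q.1 q.2 else 0 := rfl

theorem good_zero (hM : 0 < M) : Good N M 0 := by
  have h1 : ∀ B : Finset ℕ, P N M 0 B = if B = range M then 1 else 0 := fun _ => rfl
  refine ⟨?_, ?_, ?_, ?_, ?_, ?_⟩
  · intro C
    rw [h1]
    split_ifs
    · exact Al_one 0
    · exact Al_zero 0
  · intro C
    rw [h1]
    split_ifs
    · exact Matrix.transpose_one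
    · exact Matrix.transpose_zero
  · intro C
    rw [h1]
    split_ifs
    · exact one_mul 1
    · exact mul_zero 0
  · intro C C' hne
    rw [h1, h1]
    by_cases h : C = range M
    · rw [if_neg (show ¬ C' = range M from fun h' => hne (h.trans h'.symm)), mul_zero]
    · rw [if_neg h, zero_mul]
  · simp [Lv, h1]
  · intro _ C hC p
    simp only [Lv, mem_singleton] at hC
    subst hC
    rw [h1, if_pos rfl, mul_one]
    have hX : (X ((M : ℝ) - 1) 0 : Mat N) = ((M : ℝ) - 1) • 1 := by
      unfold X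
      have : (∑ i : Fin N, ∑ j : Fin N, if (i : ℕ) < j ∧ (j : ℕ) = 0 then
          (U (swap i j) : Mat N) else 0) = 0 := by
        refine Finset.sum_eq_zero fun i _ => Finset.sum_eq_zero fun j _ => ?_
        rw [if_neg]
        rintro ⟨h2, h3⟩
        omega
      rw [this, add_zero]
    have hp := aeval_eig (Z := (X ((M : ℝ) - 1) 0 : Mat N)) (T := 1) (x := (M : ℝ) - 1)
      (by rw [hX, mul_one]) p
    rw [mul_one] at hp
    rw [hp, E_smul, E_of_Al (Al_one 0).1]
    congr 1
    have h0 : (0 : ℕ) ∈ range M := mem_range.2 hM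
    have hlast : M - 1 ∈ range M := mem_range.2 (by omega)
    have hz : ∀ x ∈ range M, x ≠ M - 1 → w (range M) x = 0 := by
      intro x hx hne
      exact w_zero (mem_range.2 (by have := mem_range.1 hx; omega))
    have hw : w (range M) (M - 1) = 1 := by
      rw [← w_sum (range M) h0, Finset.sum_eq_single (M - 1) hz]
      intro h
      exact absurd hlast h
    rw [Finset.sum_eq_single (M - 1)]
    · rw [hw, one_mul, Nat.cast_sub hM, Nat.cast_one]
    · intro x hx hne
      rw [hz x hx hne, zero_mul]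
    · intro h
      exact absurd hlast h

theorem good_succ {n : ℕ} (hg : Good N M n) (hn : n < N) (hM : N < M) : Good N M (n + 1) := by
  set J := (Lv M n).sigma fun C => ad C with hJ
  have hJm : ∀ q ∈ J, q.1 ∈ Lv M n ∧ q.2 ∈ ad q.1 := fun q hq => mem_sigma.1 hq
  have hmul : ∀ q ∈ J, ∀ q' ∈ J, Pc N M n q.1 q.2 * Pc N M n q'.1 q'.2 =
      if q = q' then Pc N M n q.1 q.2 else 0 := by
    intro q hq q' hq'
    rw [hg.pc_mul hn (hJm q' hq').1 (hJm q' hq').2]
    by_cases h : q = q'
    · subst h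
      rw [if_pos ⟨rfl, rfl⟩, if_pos rfl]
    · rw [if_neg h, if_neg]
      rintro ⟨h1, h2⟩
      exact h (Sigma.ext h1 (heq_of_eq h2))
  have hprod : ∀ B B' : Finset ℕ, P N M (n + 1) B * P N M (n + 1) B' =
      ∑ q ∈ J, if mv q.1 q.2 = B ∧ mv q.1 q.2 = B' then Pc N M n q.1 q.2 else 0 := by
    intro B B'
    rw [P_succ, P_succ, Finset.sum_mul]
    refine Finset.sum_congr rfl fun q hq => ?_
    rw [Finset.mul_sum, Finset.sum_eq_single q]
    · by_cases h1 : mv q.1 q.2 = B
      · by_cases h2 : mv q.1 q.2 = B'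
        · rw [if_pos h1, if_pos h2, if_pos ⟨h1, h2⟩, hmul q hq q hq, if_pos rfl]
        · rw [if_neg h2, mul_zero, if_neg fun h => h2 h.2]
      · rw [if_neg h1, zero_mul, if_neg fun h => h1 h.1]
    · intro q' hq' hne
      by_cases h1 : mv q.1 q.2 = B
      · by_cases h2 : mv q'.1 q'.2 = B'
        · rw [if_pos h1, if_pos h2, hmul q hq q' hq', if_neg (Ne.symm hne)]
        · rw [if_neg h2, mul_zero]
      · rw [if_neg h1, zero_mul]
    · intro h
      exact absurd hq h
  refine ⟨?_, ?_, ?_, ?_, ?_, ?_⟩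
  · intro B
    rw [P_succ]
    refine Al.sum _ _ fun q _ => ?_
    split_ifs
    · exact hg.pc_al _ _
    · exact Al_zero _
  · intro B
    rw [P_succ, Matrix.transpose_sum]
    refine Finset.sum_congr rfl fun q _ => ?_
    split_ifs
    · exact hg.pc_symm hn _ _
    · exact Matrix.transpose_zero
  · intro B
    rw [hprod, P_succ]
    refine Finset.sum_congr rfl fun q _ => ?_
    by_cases h : mv q.1 q.2 = B
    · rw [if_pos ⟨h, h⟩, if_pos h]
    · rw [if_neg h, if_neg fun h' => h h'.1]
  · intro B B' hne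
    rw [hprod]
    refine Finset.sum_eq_zero fun q _ => ?_
    rw [if_neg]
    rintro ⟨h1, h2⟩
    exact hne (h1.symm.trans h2)
  · simp_rw [P_succ]
    rw [Finset.sum_comm]
    have h1 : ∀ q ∈ J, (∑ B ∈ Lv M (n + 1), if mv q.1 q.2 = B then Pc N M n q.1 q.2 else 0) =
        Pc N M n q.1 q.2 := by
      intro q hq
      rw [Finset.sum_ite_eq, if_pos (mv_mem (hJm q hq).1 (hJm q hq).2)]
    rw [Finset.sum_congr rfl h1, hJ, Finset.sum_sigma]
    rw [← hg.tot]
    refine Finset.sum_congr rfl fun C hC => ?_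
    exact pc_sum hC (by omega)
  · intro hn1 B hB p
    rw [P_succ, Finset.mul_sum, Finset.smul_sum]
    refine Finset.sum_congr rfl fun q hq => ?_
    split_ifs with h
    · rw [← h]
      exact key hg hn1 (by omega) (hJm q hq).1 (hJm q hq).2 p
    · rw [mul_zero, smul_zero]

theorem good (hM : N < M) : ∀ n, n ≤ N → Good N M n
  | 0, _ => good_zero (by omega)
  | n + 1, h => good_succ (good hM n (by omega)) (by omega) hM

/-- restriction of the idempotents -/
theorem E_P {n : ℕ} (hn : n < N) (hM : N < M) (B : Finset ℕ) : E n (P N M (n + 1) B) =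
    ∑ q ∈ (Lv M n).sigma fun C => ad C,
      if mv q.1 q.2 = B then w q.1 q.2 • P N M n q.1 else 0 := by
  have hg := good hM n (by omega)
  rw [P_succ, E_sum]
  refine Finset.sum_congr rfl fun q hq => ?_
  split_ifs
  · exact hg.pc_E hn (mem_sigma.1 hq).1 (mem_sigma.1 hq).2
  · exact E_zero n

end induct

end Pool.JM
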