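import Pool.Agent.Work.MP_46fa68_R.Cent

/-! # The ratio bound for intersecting families of permutations from a harmonic function on
Young's lattice -/

set_option autoImplicit false

open Finset Equiv

namespace Pool.JM

variable {N : ℕ}

section final

variable {M : ℕ} (a : Finset ℕ → ℝ)

/-- the weighted sum of the idempotents -/
noncomputable def G (N M : ℕ) (a : Finset ℕ → ℝ) (n : ℕ) : Mat N :=
  ∑ B ∈ Lv M n, a B • P N M n B

theorem E_G_step (hM : N < M) {n : ℕ} (hn : n < N)
    (h : ∀ C ∈ Lv M n, a C = ∑ x ∈ ad C, w C x * a (mv C x)) :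
    E n (G N M a (n + 1)) = G N M a n := by
  unfold G
  rw [E_sum]
  have h1 : ∀ B ∈ Lv M (n + 1), E n (a B • P N M (n + 1) B) =
      ∑ q ∈ (Lv M n).sigma fun C => ad C,
        if mv q.1 q.2 = B then (a (mv q.1 q.2) * w q.1 q.2) • P N M n q.1 else 0 := by
    intro B _
    rw [E_smul, E_P hn hM, Finset.smul_sum]
    refine Finset.sum_congr rfl fun q _ => ?_
    split_ifs with hq
    · rw [smul_smul, hq]
    · rw [smul_zero]
  rw [Finset.sum_congr rfl h1, Finset.sum_comm]
  have h2 : ∀ q ∈ (Lv M n).sigma fun C => ad C,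
      (∑ B ∈ Lv M (n + 1),
        if mv q.1 q.2 = B then (a (mv q.1 q.2) * w q.1 q.2) • P N M n q.1 else 0) =
        (a (mv q.1 q.2) * w q.1 q.2) • P N M n q.1 := by
    intro q hq
    rw [Finset.sum_ite_eq, if_pos (mv_mem (mem_sigma.1 hq).1 (mem_sigma.1 hq).2)]
  rw [Finset.sum_congr rfl h2, Finset.sum_sigma]
  refine Finset.sum_congr rfl fun C hC => ?_
  simp only
  rw [← Finset.sum_smul, h C hC]
  congr 1
  refine Finset.sum_congr rfl fun x _ => ?_
  ring

theorem E_G (hM : N < M) {m : ℕ}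
    (h : ∀ k, m ≤ k → k < N → ∀ C ∈ Lv M k, a C = ∑ x ∈ ad C, w C x * a (mv C x)) :
    ∀ d, m + d ≤ N → E m (G N M a (m + d)) = G N M a m
  | 0, hd => by
    refine E_of_Al (Al.sum _ _ fun B _ => ?_).1
    exact ((good hM m (by omega)).al B).smul _
  | d + 1, hd => by
    rw [← E_E (Nat.le_add_right m d), show m + (d + 1) = m + d + 1 by omega,
      E_G_step a hM (by omega) (h (m + d) (by omega) (by omega))]
    exact E_G hM h d (by omega)

/-- the all-ones matrix -/
noncomputable def J : Mat N := fun _ _ => 1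

theorem U_J (σ : Perm (Fin N)) : U σ * J = J := by
  ext g h
  rw [U_mul_apply]
  rfl

theorem X_J (c : ℝ) {n : ℕ} (hn : n < N) : X c n * (J : Mat N) = (c + n) • J := by
  rw [X_eq c hn, add_mul, Matrix.smul_mul, one_mul, Finset.sum_mul, add_smul]
  congr 1
  have h1 : ∀ i : Fin N, (if (i : ℕ) < n then U (swap i ⟨n, hn⟩) else 0) * (J : Mat N) =
      if (i : ℕ) < n then J else 0 := by
    intro i
    split_ifs
    · exact U_J _
    · exact zero_mul _
  rw [Finset.sum_congr rfl fun i _ => h1 i, ← Finset.sum_filter, Finset.sum_const]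
  have h2 : (univ.filter fun i : Fin N => (i : ℕ) < n).card = n := by
    have : (univ.filter fun i : Fin N => (i : ℕ) < n) = Finset.Iio ⟨n, hn⟩ := by
      ext i
      simp [Fin.lt_def]
    rw [this, Fin.card_Iio]
  rw [h2, Nat.cast_smul_eq_nsmul]

theorem P_J (hM : N < M) : ∀ n, n ≤ N → ∀ B, P N M n B * J = if B = Rw M n then J else 0
  | 0, _, B => by
    have e : P N M 0 B = if B = range M then 1 else 0 := rfl
    rw [e, Rw_zero (by omega)]
    split_ifs
    · exact one_mul _
    · exact zero_mul _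
  | n + 1, h, B => by
    have ih := P_J hM n (by omega)
    have hcast : ((M : ℝ) - 1) + n = ((M - 1 + n : ℕ) : ℝ) := by
      push_cast [Nat.cast_sub (show 1 ≤ M by omega)]
      ring
    rw [P_succ, Finset.sum_mul]
    have h1 : ∀ q ∈ (Lv M n).sigma fun C => ad C,
        (if mv q.1 q.2 = B then Pc N M n q.1 q.2 else 0) * J =
          if q = ⟨Rw M n, M - 1 + n⟩ then (if B = Rw M (n + 1) then J else 0) else 0 := by
      intro q hq
      obtain ⟨hC, hu⟩ := mem_sigma.1 hq
      have e1 : Pc N M n q.1 q.2 * J =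
          (ell q.1 q.2).eval (((M - 1 + n : ℕ) : ℝ)) • (P N M n q.1 * J) := by
        unfold Pc
        rw [mul_assoc, aeval_eig (X_J _ (by omega)), hcast, Matrix.mul_smul]
      by_cases hq1 : q = ⟨Rw M n, M - 1 + n⟩
      · rw [if_pos hq1, hq1]
        simp only
        rw [Rw_mv]
        by_cases hB : Rw M (n + 1) = B
        · rw [if_pos hB, if_pos hB.symm]
          rw [hq1] at e1
          simp only at e1
          rw [e1, ih, if_pos rfl]
          unfold ell
          rw [Lagrange.eval_basis_self (inj _) (Rw_ad M n), one_smul]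
        · rw [if_neg hB, if_neg fun h' => hB h'.symm, zero_mul]
      · rw [if_neg hq1]
        split_ifs with hB
        · rw [e1, ih]
          by_cases hC1 : q.1 = Rw M n
          · have hx : q.2 ≠ M - 1 + n := by
              intro hx
              apply hq1
              obtain ⟨C, x⟩ := q
              simp only at hC1 hx
              rw [hC1, hx]
            rw [if_pos hC1]
            unfold ell
            rw [Lagrange.eval_basis_of_ne (v := fun y : ℕ => (y : ℝ)) hx
              (by rw [hC1]; exact Rw_ad M n), zero_smul]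
          · rw [if_neg hC1, smul_zero]
        · exact zero_mul _
    rw [Finset.sum_congr rfl h1, Finset.sum_ite_eq', if_pos]
    exact mem_sigma.2 ⟨Rw_mem (by omega) n, Rw_ad M n⟩

/-- a permutation with many fixed points is conjugate to an element of `S_m` -/
theorem conj_small {m : ℕ} {σ : Perm (Fin N)} (h : N - m ≤ (univ.filter fun i => σ i = i).card) :
    ∃ τ : Perm (Fin N), Sn m (τ * σ * τ⁻¹) := by
  obtain ⟨F, hF, hc⟩ := Finset.exists_subset_card_eq h
  have h1 : (univ.filter fun i : Fin N => m ≤ (i : ℕ)).card = N - m := by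
    have e := Finset.card_filter_add_card_filter_not (s := (univ : Finset (Fin N)))
      (fun i : Fin N => m ≤ (i : ℕ))
    have h2 : (univ.filter fun i : Fin N => ¬ m ≤ (i : ℕ)).card = min m N := by
      simp only [not_le]
      rw [Fin.card_filter_val_lt, min_comm]
    rw [h2, card_univ, Fintype.card_fin] at e
    omega
  obtain ⟨τ, hτ⟩ := Perm.exists_map_finset_eq F (univ.filter fun i : Fin N => m ≤ (i : ℕ))
    (hc.trans h1.symm)
  refine ⟨τ, fun k hk => ?_⟩
  have hk' : k ∈ F.map τ.toEmbedding := by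
    rw [hτ]
    simpa using hk
  obtain ⟨j, hj, rfl⟩ := mem_map.1 hk'
  have hσ : σ j = j := (mem_filter.1 (hF hj)).2
  change (τ * σ * τ⁻¹) (τ j) = τ j
  rw [Perm.mul_apply, Perm.mul_apply, show τ⁻¹ (τ j) = j from τ.symm_apply_apply j, hσ]

/-- the ratio bound -/
theorem ratio (hM : N < M) {m : ℕ} (hm : m ≤ N)
    (h1 : ∀ k, m ≤ k → k < N → ∀ C ∈ Lv M k, a C = ∑ x ∈ ad C, w C x * a (mv C x))
    (h2 : ∀ C ∈ Lv M m, a C = 1) (h3 : ∀ B ∈ Lv M N, 0 ≤ a B)
    (A : Finset (Perm (Fin N)))
    (hA : ∀ σ ∈ A, ∀ τ ∈ A, N - m ≤ (univ.filter fun i => σ i = τ i).card) :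
    (A.card : ℝ) * a (Rw M N) ≤ N.factorial := by
  have hg := good (N := N) hM N le_rfl
  set g : Mat N := G N M a N with hgdef
  have hgal : Inv g := (Al.sum _ _ fun B _ => (hg.al B).smul _).2
  have hEg : E m g = 1 := by
    have := E_G a hM h1 (N - m) (by omega)
    rw [show m + (N - m) = N by omega] at this
    rw [hgdef, this]
    unfold G
    rw [← (good (N := N) hM m hm).tot]
    refine Finset.sum_congr rfl fun C hC => ?_
    rw [h2 C hC, one_smul]
  have hcent : ∀ σ, U σ * g = g * U σ := by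
    refine central fun i hi => ?_
    rw [hgdef]
    unfold G
    rw [Finset.mul_sum, Finset.sum_mul]
    refine Finset.sum_congr rfl fun B hB => ?_
    rw [Matrix.mul_smul, Matrix.smul_mul, P_s hM hi hB]
  -- class function
  have hclass : ∀ σ τ : Perm (Fin N), g (τ * σ * τ⁻¹) 1 = g σ 1 := by
    intro σ τ
    have e1 : (U τ⁻¹ * g) (σ * τ⁻¹) 1 = g (τ * σ * τ⁻¹) 1 := by
      rw [U_mul_apply, inv_inv, mul_assoc]
    rw [← e1, hcent, mul_U_apply, mul_one]
    have := hgal σ 1 τ⁻¹
    rwa [one_mul] at this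
  have hval : ∀ σ : Perm (Fin N), N - m ≤ (univ.filter fun i => σ i = i).card →
      g σ 1 = if σ = 1 then 1 else 0 := by
    intro σ hσ
    obtain ⟨τ, hτ⟩ := conj_small hσ
    rw [← hclass σ τ]
    have e1 : E m g (τ * σ * τ⁻¹) 1 = g (τ * σ * τ⁻¹) 1 :=
      E_apply_of (by simpa using hτ)
    rw [← e1, hEg, Matrix.one_apply]
    refine if_congr ?_ rfl rfl
    constructor
    · intro h
      have : σ = τ⁻¹ * (τ * σ * τ⁻¹) * τ := by group
      rw [this, h]
      group
    · rintro rfl
      group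
  have hval2 : ∀ σ ∈ A, ∀ τ ∈ A, g σ τ = if σ = τ then 1 else 0 := by
    intro σ hσ τ hτ
    have e1 : g σ τ = g (σ * τ⁻¹) 1 := by
      have := hgal (σ * τ⁻¹) 1 τ
      rw [one_mul] at this
      rw [← this]
      congr 1
      group
    rw [e1, hval]
    · refine if_congr ?_ rfl rfl
      rw [mul_inv_eq_one]
    · refine (hA σ hσ τ hτ).trans ?_
      refine Finset.card_le_card_of_injOn τ ?_ (τ.injective.injOn)
      intro i hi
      have hi' : σ i = τ i := (mem_filter.1 hi).2
      refine mem_coe.2 (mem_filter.2 ⟨mem_univ _, ?_⟩)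
      rw [Perm.mul_apply, show τ⁻¹ (τ i) = i from τ.symm_apply_apply i, hi']
  -- the quadratic form
  set v : Perm (Fin N) → ℝ := fun σ => if σ ∈ A then 1 else 0 with hv
  have hquad : v ⬝ᵥ (g.mulVec v) = A.card := by
    have e1 : v ⬝ᵥ (g.mulVec v) = ∑ σ ∈ A, ∑ τ ∈ A, g σ τ := by
      simp only [dotProduct, Matrix.mulVec, hv, ite_mul, one_mul, zero_mul, mul_ite, mul_one,
        mul_zero, Finset.sum_ite_mem, univ_inter]
    rw [e1, Finset.sum_congr rfl fun σ hσ => Finset.sum_congr rfl fun τ hτ => hval2 σ hσ τ hτ]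
    rw [Finset.sum_congr rfl fun σ hσ => Finset.sum_ite_eq A σ _]
    simp
  have hnonneg : ∀ B, v ⬝ᵥ ((P N M N B).mulVec v) =
      (P N M N B).mulVec v ⬝ᵥ (P N M N B).mulVec v := by
    intro B
    nth_rewrite 1 [← hg.idem B]
    rw [← Matrix.mulVec_mulVec, Matrix.dotProduct_mulVec, ← Matrix.mulVec_transpose, hg.symm]
  have hsum : v ⬝ᵥ (g.mulVec v) = ∑ B ∈ Lv M N, a B * (v ⬝ᵥ ((P N M N B).mulVec v)) := by
    rw [hgdef]
    unfold G
    rw [Matrix.sum_mulVec, dotProduct_sum]
    refine Finset.sum_congr rfl fun B _ => ?_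
    rw [Matrix.smul_mulVec, dotProduct_smul, smul_eq_mul]
  have hRw : Rw M N ∈ Lv M N := Rw_mem (by omega) N
  have hge : a (Rw M N) * (v ⬝ᵥ ((P N M N (Rw M N)).mulVec v)) ≤ A.card := by
    rw [← hquad, hsum]
    refine Finset.single_le_sum (f := fun B => a B * (v ⬝ᵥ ((P N M N B).mulVec v))) ?_ hRw
    intro B hB
    refine mul_nonneg (h3 B hB) ?_
    rw [hnonneg]
    exact Finset.sum_nonneg fun i _ => mul_self_nonneg _
  -- Cauchy-Schwarz with the constant vector
  have hone : (P N M N (Rw M N)).mulVec (fun _ => (1 : ℝ)) = fun _ => 1 := by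
    have := P_J (N := N) hM N le_rfl (Rw M N)
    rw [if_pos rfl] at this
    ext σ
    have h := congrFun (congrFun this σ) 1
    rw [Matrix.mul_apply] at h
    simpa [Matrix.mulVec, dotProduct, J] using h
  have hcs : (A.card : ℝ) ^ 2 ≤ N.factorial * (v ⬝ᵥ ((P N M N (Rw M N)).mulVec v)) := by
    have e1 : (A.card : ℝ) = ∑ σ, (P N M N (Rw M N)).mulVec v σ := by
      have e2 : v ⬝ᵥ (P N M N (Rw M N)).mulVec (fun _ => (1 : ℝ)) =
          (P N M N (Rw M N)).mulVec v ⬝ᵥ (fun _ => (1 : ℝ)) := by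
        rw [Matrix.dotProduct_mulVec, ← Matrix.mulVec_transpose, hg.symm]
      rw [hone] at e2
      have e3 : v ⬝ᵥ (fun _ => (1 : ℝ)) = A.card := by
        simp [dotProduct, hv]
      rw [← e3, e2]
      simp [dotProduct]
    rw [e1, hnonneg]
    have := sq_sum_le_card_mul_sum_sq (s := (univ : Finset (Perm (Fin N))))
      (f := fun σ => (P N M N (Rw M N)).mulVec v σ)
    rw [card_univ, Fintype.card_perm, Fintype.card_fin] at this
    refine this.trans (le_of_eq ?_)
    congr 1
    simp only [dotProduct]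
    refine Finset.sum_congr rfl fun σ _ => ?_
    ring
  have haR : 0 ≤ a (Rw M N) := h3 _ hRw
  rcases Nat.eq_zero_or_pos A.card with h0 | h0
  · rw [h0, Nat.cast_zero, zero_mul]
    positivity
  · have hpos : (0 : ℝ) < A.card := by exact_mod_cast h0
    have h5 : a (Rw M N) * (A.card : ℝ) ^ 2 ≤ N.factorial * A.card :=
      calc a (Rw M N) * (A.card : ℝ) ^ 2 ≤
          a (Rw M N) * (N.factorial * (v ⬝ᵥ ((P N M N (Rw M N)).mulVec v))) :=
            mul_le_mul_of_nonneg_left hcs haR
        _ = N.factorial * (a (Rw M N) * (v ⬝ᵥ ((P N M N (Rw M N)).mulVec v))) := by ring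
        _ ≤ N.factorial * A.card := mul_le_mul_of_nonneg_left hge (by positivity)
    have h6 : (A.card : ℝ) * (A.card * a (Rw M N)) ≤ A.card * N.factorial := by
      calc (A.card : ℝ) * (A.card * a (Rw M N)) = a (Rw M N) * (A.card : ℝ) ^ 2 := by ring
        _ ≤ N.factorial * A.card := h5
        _ = _ := by ring
    exact le_of_mul_le_mul_left h6 hpos

end final

end Pool.JM
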